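import Pool.Agent.Helper87.TotSync.Rank
import Pool.Agent.Helper87.NP.Defs

/-!
# The language TOTSYNC
-/

open Pool.Agent.Helper87.TotSync

namespace Pool.Agent.Helper87.TotSync

/-- A number in unary, ended by `false`. -/
def unary (m : ℕ) : List Bool := List.replicate m true ++ [false]

/-- The encoding of a `k`-out-regular digraph with vertices `0, …, n - 1`: the numbers `n` and `k`
and then, for every vertex, the heads of its `k` outgoing edges, all in unary. -/
def encode (n k : ℕ) (head : Fin n → Fin k → Fin n) : List Bool :=
  unary n ++ (unary k ++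
    (List.ofFn fun v => (List.ofFn fun a => unary (head v a)).flatten).flatten)

/-- TOTSYNC: the encodings of the totally synchronizing digraphs. -/
def TOTSYNC : Set (List Bool) :=
  {w | ∃ (n k : ℕ) (head : Fin n → Fin k → Fin n), 1 ≤ k ∧ w = encode n k head ∧
    TotallySync head}

/-! ### Parsing -/

/-- one step of parsing -/
def bstep (s : List ℕ × ℕ) (b : Bool) : List ℕ × ℕ :=
  if b = true then (s.1, s.2 + 1) else (s.1 ++ [s.2], 0)

/-- the blocks of a string -/
def blocks (w : List Bool) : List ℕ × ℕ := w.foldl bstep ([], 0)

lemma foldl_unary (m : ℕ) (l : List ℕ) (c : ℕ) :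
    (unary m).foldl bstep (l, c) = (l ++ [c + m], 0) := by
  unfold unary
  rw [List.foldl_append]
  have : ∀ m c, (List.replicate m true).foldl bstep (l, c) = (l, c + m) := by
    intro m
    induction m with
    | zero => intro c; rfl
    | succ m ih =>
      intro c
      rw [List.replicate_succ, List.foldl_cons]
      have : bstep (l, c) true = (l, c + 1) := rfl
      rw [this, ih]; congr 1; omega
  rw [this]; rfl

lemma foldl_flatMap_unary (ms : List ℕ) : ∀ l : List ℕ,
    (ms.flatMap unary).foldl bstep (l, 0) = (l ++ ms, 0) := by
  induction ms with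
  | nil => intro l; simp
  | cons m ms ih =>
    intro l
    rw [List.flatMap_cons, List.foldl_append, foldl_unary, ih]
    simp

@[simp] lemma blocks_flatMap (ms : List ℕ) : blocks (ms.flatMap unary) = (ms, 0) := by
  unfold blocks
  rw [foldl_flatMap_unary]; simp

lemma blocks_spec (w : List Bool) :
    (blocks w).1.flatMap unary ++ List.replicate (blocks w).2 true = w := by
  have key : ∀ (w : List Bool) (l : List ℕ) (c : ℕ),
      (w.foldl bstep (l, c)).1.flatMap unary ++ List.replicate (w.foldl bstep (l, c)).2 true =
        l.flatMap unary ++ List.replicate c true ++ w := by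
    intro w
    induction w with
    | nil => intro l c; simp
    | cons b w ih =>
      intro l c
      rw [List.foldl_cons]
      cases b
      · have : bstep (l, c) false = (l ++ [c], 0) := rfl
        rw [this, ih]
        simp [unary]
      · have : bstep (l, c) true = (l, c + 1) := rfl
        rw [this, ih]
        simp [List.replicate_succ']
  have := key w [] 0
  simpa [blocks] using this

/-- the numbers of an encoding -/
def nums (n k : ℕ) (head : Fin n → Fin k → Fin n) : List ℕ :=
  n :: k :: (List.ofFn fun v => (List.ofFn fun a => (head v a).val)).flatten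

lemma encode_eq (n k : ℕ) (head : Fin n → Fin k → Fin n) :
    encode n k head = (nums n k head).flatMap unary := by
  simp only [encode, nums, List.flatMap_cons, List.append_assoc]
  congr 2
  simp only [List.flatMap_def, List.map_flatten, List.map_ofFn, List.flatten_flatten]
  congr 2
  funext v
  simp [List.map_ofFn, Function.comp_def]

/-- the entries of a table with `n` rows and `k` columns -/
def table {n k : ℕ} (f : Fin n → Fin k → ℕ) : List ℕ :=
  (List.ofFn fun v => (List.ofFn fun a => f v a)).flatten

lemma length_table {n k : ℕ} (f : Fin n → Fin k → ℕ) : (table f).length = n * k := by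
  simp [table, List.length_flatten, List.sum_ofFn, Function.comp_def]

lemma table_eq {n k : ℕ} (f : Fin n → Fin k → ℕ) : table f =
    List.ofFn fun i : Fin (n * k) => f (finProdFinEquiv.symm i).1 (finProdFinEquiv.symm i).2 := by
  rw [List.ofFn_mul]
  unfold table
  congr 2
  funext v
  congr 1
  funext a
  have h : (⟨v.val * k + a.val, by
      calc v.val * k + a.val < (v.val + 1) * k := by
            have := a.2; linarith [Nat.succ_mul v.val k]
        _ ≤ n * k := Nat.mul_le_mul_right _ v.2⟩ : Fin (n * k)) = finProdFinEquiv (v, a) := by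
    apply Fin.ext
    simp [finProdFinEquiv]; ring
  rw [h]; simp

lemma getElem?_table {n k : ℕ} (f : Fin n → Fin k → ℕ) (v : Fin n) (a : Fin k) :
    (table f)[v.val * k + a.val]? = some (f v a) := by
  have h : v.val * k + a.val < n * k := by
    calc v.val * k + a.val < (v.val + 1) * k := by
          have := a.2; linarith [Nat.succ_mul v.val k]
      _ ≤ n * k := Nat.mul_le_mul_right _ v.2
  rw [table_eq, List.getElem?_ofFn, dif_pos h]
  congr 1
  have h : (⟨v.val * k + a.val, h⟩ : Fin (n * k)) = finProdFinEquiv (v, a) := by
    apply Fin.ext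
    simp [finProdFinEquiv]; ring
  rw [h]; simp

lemma nums_eq (n k : ℕ) (head : Fin n → Fin k → Fin n) :
    nums n k head = n :: k :: table fun v a => (head v a).val := rfl

lemma mem_table {n k : ℕ} {f : Fin n → Fin k → ℕ} {m : ℕ} (h : m ∈ table f) :
    ∃ v a, f v a = m := by
  simp only [table, List.mem_flatten, List.mem_ofFn, Set.mem_range] at h
  obtain ⟨l, ⟨v, rfl⟩, h⟩ := h
  simp only [List.mem_ofFn, Set.mem_range] at h
  obtain ⟨a, h⟩ := h
  exact ⟨v, a, h⟩

lemma table_of_list {n k : ℕ} {l : List ℕ} (h : l.length = n * k) :
    (table fun (v : Fin n) (a : Fin k) => (l[v.val * k + a.val]?).getD 0) = l := by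
  apply List.ext_getElem?
  intro i
  rw [table_eq, List.getElem?_ofFn]
  split_ifs with hi
  · have h1 : (finProdFinEquiv.symm (⟨i, hi⟩ : Fin (n * k))).1.val * k +
        (finProdFinEquiv.symm (⟨i, hi⟩ : Fin (n * k))).2.val = i := by
      have h2 := finProdFinEquiv.apply_symm_apply (⟨i, hi⟩ : Fin (n * k))
      have h3 := congrArg Fin.val h2
      simp only [finProdFinEquiv, Equiv.coe_fn_mk] at h3
      rw [mul_comm, add_comm]
      exact h3
    rw [h1, List.getElem?_eq_getElem (h ▸ hi)]
    simp
  · symm
    rw [List.getElem?_eq_none_iff]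
    omega

end Pool.Agent.Helper87.TotSync
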