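import Pool.Agent.Helper87.TotSync.Hard

/-!
# TOTSYNC is in coNP
-/

open Finset Function
open Pool.Agent.Helper91.PolyTime Pool.Agent.Helper91.Reduction Pool.Agent.Helper91.Verifier
open Pool.Agent.Helper87.NP

namespace Pool.Agent.Helper87.TotSync

/-- If all pairs can be merged, the automaton is synchronizing. -/
lemma sync_of_merge {V A : Type*} [Fintype V] [Nonempty V] (δ : V → A → V)
    (h : ∀ s t, ∃ w, run δ s w = run δ t w) : IsSync δ := by
  classical
  obtain ⟨x, hx⟩ : ∃ x : List A, ∀ w : List A, rk δ x ≤ rk δ w := by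
    let P : ℕ → Prop := fun m => ∃ w : List A, rk δ w = m
    have hP : ∃ m, P m := ⟨_, [], rfl⟩
    obtain ⟨x, hx⟩ := Nat.find_spec hP
    exact ⟨x, fun w => hx ▸ Nat.find_min' hP ⟨w, rfl⟩⟩
  obtain ⟨v0⟩ := ‹Nonempty V›
  refine ⟨x, run δ v0 x, fun v => ?_⟩
  by_contra hne
  obtain ⟨u, hu⟩ := h (run δ v x) (run δ v0 x)
  have h1 := hx (x ++ u)
  have h2 : (univ.image fun v => run δ v (x ++ u)) =
      (univ.image fun v => run δ v x).image fun s => run δ s u := by
    ext s; simp [run_append]
  unfold rk at h1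
  rw [h2] at h1
  have h3 := Finset.card_image_iff.1 (le_antisymm Finset.card_image_le h1)
  exact hne (h3 (by simp) (by simp) hu)

/-- entry of a list -/
def ent (l : List ℕ) (i : ℕ) : ℕ := (l[i]?).getD 0

/-- the string encodes a digraph -/
def validB (ms : List ℕ × ℕ) : Bool :=
  decide (ms.2 = 0) && (decide (2 ≤ ms.1.length) && (decide (1 ≤ ent ms.1 1) &&
    (decide ((ms.1.drop 2).length = ent ms.1 0 * ent ms.1 1) &&
      (ms.1.drop 2).all fun h => decide (h < ent ms.1 0))))

/-- the certificate describes a colouring and an invariant set of pairs -/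
def certB (n k : ℕ) (hs ys : List ℕ) : Bool :=
  ((List.range n).all fun v => (List.range k).all fun a => decide (ent ys (v * k + a) < k)) &&
  (((List.range n).all fun v => (List.range k).all fun j => (List.range k).any fun a =>
    decide (ent ys (v * k + a) = j)) &&
  ((decide (n = 0) || (List.range n).any fun p => (List.range n).any fun r =>
    decide (ent ys (n * k + (p * n + r)) = 1)) &&
  (((List.range n).all fun p => !decide (ent ys (n * k + (p * n + p)) = 1)) &&
  (List.range n).all fun p => (List.range n).all fun r => (List.range k).all fun a =>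
    !decide (ent ys (n * k + (p * n + r)) = 1) ||
      decide (ent ys (n * k + (ent hs (p * k + ent ys (p * k + a)) * n +
        ent hs (r * k + ent ys (r * k + a)))) = 1))))

lemma certB_iff (n k : ℕ) (hs ys : List ℕ) : certB n k hs ys = true ↔
    (∀ v < n, ∀ a < k, ent ys (v * k + a) < k) ∧
    (∀ v < n, ∀ j < k, ∃ a < k, ent ys (v * k + a) = j) ∧
    (n = 0 ∨ ∃ p < n, ∃ r < n, ent ys (n * k + (p * n + r)) = 1) ∧
    (∀ p < n, ent ys (n * k + (p * n + p)) ≠ 1) ∧
    (∀ p < n, ∀ r < n, ∀ a < k, ent ys (n * k + (p * n + r)) = 1 →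
      ent ys (n * k + (ent hs (p * k + ent ys (p * k + a)) * n +
        ent hs (r * k + ent ys (r * k + a)))) = 1) := by
  simp only [certB, Bool.and_eq_true, List.all_eq_true, List.mem_range, decide_eq_true_eq,
    List.any_eq_true, Bool.or_eq_true, Bool.not_eq_true', decide_eq_false_iff_not, ne_eq]
  refine and_congr Iff.rfl (and_congr Iff.rfl (and_congr Iff.rfl (and_congr Iff.rfl ?_)))
  refine forall_congr' fun p => forall_congr' fun _ => forall_congr' fun r => forall_congr' fun _ =>
    forall_congr' fun a => forall_congr' fun _ => ?_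
  tauto

lemma ent_table {n k : ℕ} (f : Fin n → Fin k → ℕ) {v a : ℕ} (hv : v < n) (ha : a < k) :
    ent (table f) (v * k + a) = f ⟨v, hv⟩ ⟨a, ha⟩ := by
  have := getElem?_table f ⟨v, hv⟩ ⟨a, ha⟩
  simp only at this
  unfold ent
  rw [this]; rfl

lemma cert_sound {n k : ℕ} (head : Fin n → Fin k → Fin n) {ys : List ℕ}
    (h : certB n k (table fun v a => (head v a).val) ys = true) : ¬ TotallySync head := by
  rw [certB_iff] at h
  obtain ⟨h1, h2, h3, h4, h5⟩ := h
  intro hT
  let f : Fin n → Fin k → Fin k := fun v a => ⟨ent ys (v * k + a), h1 v.1 v.2 a.1 a.2⟩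
  have hf : ∀ v, Bijective (f v) := by
    intro v
    rw [← Finite.surjective_iff_bijective]
    intro j
    obtain ⟨a, ha, haj⟩ := h2 v.1 v.2 j.1 j.2
    exact ⟨⟨a, ha⟩, Fin.ext haj⟩
  obtain ⟨w, s, hw⟩ := hT fun v => Equiv.ofBijective (f v) (hf v)
  have hn : n ≠ 0 := by
    rintro rfl
    exact s.elim0
  obtain ⟨p, hp, r, hr, hpr⟩ := h3.resolve_left hn
  have key : ∀ (w : List (Fin k)) (p r : Fin n), ent ys (n * k + (p.1 * n + r.1)) = 1 →
      ent ys (n * k + ((run (fun v a => head v (Equiv.ofBijective (f v) (hf v) a)) p w).1 * n +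
        (run (fun v a => head v (Equiv.ofBijective (f v) (hf v) a)) r w).1)) = 1 := by
    intro w
    induction w with
    | nil => intro p r h; exact h
    | cons a w ih =>
      intro p r h
      simp only [run_cons]
      apply ih
      have h6 := h5 p.1 p.2 r.1 r.2 a.1 a.2 h
      rw [ent_table _ p.2 (h1 p.1 p.2 a.1 a.2), ent_table _ r.2 (h1 r.1 r.2 a.1 a.2)] at h6
      exact h6
  have h6 := key w ⟨p, hp⟩ ⟨r, hr⟩ hpr
  rw [hw, hw] at h6
  exact h4 s.1 s.2 h6

lemma length_flatMap_unary (l : List ℕ) (B : ℕ) (h : ∀ m ∈ l, m ≤ B) :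
    (l.flatMap unary).length ≤ l.length * (B + 1) := by
  induction l with
  | nil => simp
  | cons m l ih =>
    rw [List.flatMap_cons, List.length_append, List.length_cons, Nat.succ_mul]
    have h1 := ih fun x hx => h x (List.mem_cons_of_mem _ hx)
    have h2 := h m List.mem_cons_self
    have h3 : (unary m).length = m + 1 := by simp [unary]
    omega

lemma cert_complete {n k : ℕ} (head : Fin n → Fin k → Fin n) (h : ¬ TotallySync head) :
    ∃ ys : List ℕ, certB n k (table fun v a => (head v a).val) ys = true ∧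
      (ys.flatMap unary).length ≤ n * k * (k + 1) + n * n * 2 := by
  classical
  unfold TotallySync at h
  push Not at h
  obtain ⟨σ, hσ⟩ := h
  set δ : Fin n → Fin k → Fin n := fun v a => head v (σ v a) with hδ
  let Γ : Fin n → Fin n → ℕ := fun p r => if ∀ w, run δ p w ≠ run δ r w then 1 else 0
  refine ⟨table (fun v a => (σ v a).val) ++ table Γ, ?_, ?_⟩
  · have e1 : ∀ v (hv : v < n) a (ha : a < k),
        ent (table (fun v a => (σ v a).val) ++ table Γ) (v * k + a) = (σ ⟨v, hv⟩ ⟨a, ha⟩).val := by
      intro v hv a ha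
      have hlt : v * k + a < n * k := by
        calc v * k + a < (v + 1) * k := by linarith [Nat.succ_mul v k]
          _ ≤ n * k := Nat.mul_le_mul_right _ hv
      have := ent_table (fun v a => (σ v a).val) hv ha
      unfold ent at this ⊢
      rw [List.getElem?_append_left (by rw [length_table]; exact hlt)]
      exact this
    have e2 : ∀ p (hp : p < n) r (hr : r < n),
        ent (table (fun v a => (σ v a).val) ++ table Γ) (n * k + (p * n + r)) =
          Γ ⟨p, hp⟩ ⟨r, hr⟩ := by
      intro p hp r hr
      have := ent_table Γ hp hr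
      unfold ent at this ⊢
      rw [List.getElem?_append_right (by rw [length_table]; omega), length_table,
        Nat.add_sub_cancel_left]
      exact this
    have hΓ : ∀ p r, Γ p r = 1 ↔ ∀ w, run δ p w ≠ run δ r w := by
      intro p r
      simp only [Γ]
      split_ifs with h <;> simp [h]
    rw [certB_iff]
    refine ⟨?_, ?_, ?_, ?_, ?_⟩
    · intro v hv a ha
      rw [e1 v hv a ha]; exact Fin.is_lt _
    · intro v hv j hj
      refine ⟨((σ ⟨v, hv⟩).symm ⟨j, hj⟩).val, Fin.is_lt _, ?_⟩
      rw [e1 v hv _ (Fin.is_lt _)]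
      simp
    · by_contra hno
      push Not at hno
      obtain ⟨hn, hno⟩ := hno
      haveI : Nonempty (Fin n) := ⟨⟨0, by omega⟩⟩
      apply hσ
      apply sync_of_merge
      intro p r
      have h1 := hno p.1 p.2 r.1 r.2
      rw [e2 p.1 p.2 r.1 r.2] at h1
      have h2 := (not_congr (hΓ p r)).1 h1
      push Not at h2
      exact h2
    · intro p hp
      rw [e2 p hp p hp, ne_eq, hΓ]
      intro h1
      exact h1 [] rfl
    · intro p hp r hr a ha h1
      rw [e2 p hp r hr, hΓ] at h1
      rw [e1 p hp a ha, e1 r hr a ha, ent_table _ hp (Fin.is_lt _), ent_table _ hr (Fin.is_lt _),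
        e2 _ (Fin.is_lt _) _ (Fin.is_lt _), hΓ]
      intro w
      exact h1 (⟨a, ha⟩ :: w)
  · rw [List.flatMap_append, List.length_append]
    have h1 := length_flatMap_unary (table (fun v a => (σ v a).val)) k (by
      intro m hm
      obtain ⟨v, a, rfl⟩ := mem_table hm
      exact (Fin.is_lt _).le)
    have h2 := length_flatMap_unary (table Γ) 1 (by
      intro m hm
      obtain ⟨p, r, rfl⟩ := mem_table hm
      simp only [Γ]
      split_ifs <;> simp)
    rw [length_table] at h1 h2
    omega

lemma validB_iff (w : List Bool) : validB (blocks w) = true ↔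
    ∃ (n k : ℕ) (head : Fin n → Fin k → Fin n), 1 ≤ k ∧ w = encode n k head := by
  constructor
  · intro h
    simp only [validB, Bool.and_eq_true, decide_eq_true_eq, List.all_eq_true] at h
    obtain ⟨h1, h2, h3, h4, h5⟩ := h
    have hspec := blocks_spec w
    rw [h1] at hspec
    simp only [List.replicate_zero, List.append_nil] at hspec
    obtain ⟨n, k, hs, hl⟩ : ∃ n k hs, (blocks w).1 = n :: k :: hs := by
      rcases hx : (blocks w).1 with _ | ⟨n, _ | ⟨k, hs⟩⟩
      · rw [hx] at h2; simp at h2
      · rw [hx] at h2; simp at h2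
      · exact ⟨n, k, hs, rfl⟩
    rw [hl] at h3 h4 h5 hspec
    simp only [ent, List.drop_succ_cons, List.drop_zero, List.getElem?_cons_succ,
      List.getElem?_cons_zero, Option.getD_some] at h3 h4 h5
    have hlt : ∀ (v : Fin n) (a : Fin k), (hs[v.val * k + a.val]?).getD 0 < n := by
      intro v a
      have hi : v.val * k + a.val < hs.length := by
        rw [h4]
        calc v.val * k + a.val < (v.val + 1) * k := by
              have := a.2; linarith [Nat.succ_mul v.val k]
          _ ≤ n * k := Nat.mul_le_mul_right _ v.2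
      rw [List.getElem?_eq_getElem hi]
      exact h5 _ (List.getElem_mem hi)
    refine ⟨n, k, fun v a => ⟨(hs[v.val * k + a.val]?).getD 0, hlt v a⟩, h3, ?_⟩
    rw [encode_eq, nums_eq, ← hspec]
    simp only
    rw [table_of_list h4]
  · rintro ⟨n, k, head, hk, rfl⟩
    rw [encode_eq, blocks_flatMap, nums_eq]
    simp only [validB, Bool.and_eq_true, decide_eq_true_eq, List.all_eq_true, ent,
      List.drop_succ_cons, List.drop_zero, List.getElem?_cons_succ,
      List.getElem?_cons_zero, Option.getD_some, List.length_cons, length_table]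
    refine ⟨trivial, by omega, hk, trivial, fun m hm => ?_⟩
    obtain ⟨v, a, rfl⟩ := mem_table hm
    exact Fin.is_lt _

/-- The verifier for the complement of TOTSYNC. -/
def verifier (a : List Bool × List Bool) : Bool :=
  !(validB (blocks a.1)) || certB (ent (blocks a.1).1 0) (ent (blocks a.1).1 1)
    ((blocks a.1).1.drop 2) (blocks a.2).1

section ptime

variable {α : Type*} [PEnc α]

lemma ptf_ent {l : α → List ℕ} {i : α → ℕ} (hl : PTF l) (hi : PTF i) :
    PTF (fun a => ent (l a) (i a)) := ptf_getD (PTF.getElem? hi hl) (PTF.const 0)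

lemma length_enc_nats (l : List ℕ) : (enc l).length = 2 * l.sum + l.length := by
  induction l with
  | nil => rfl
  | cons m l ih =>
    rw [length_enc_cons, ih, length_enc_nat, List.sum_cons, List.length_cons]; ring

lemma foldl_bstep_size (w : List Bool) : ∀ s : List ℕ × ℕ,
    (w.foldl bstep s).1.sum + (w.foldl bstep s).2 + (w.foldl bstep s).1.length ≤
      s.1.sum + s.2 + s.1.length + w.length := by
  induction w with
  | nil => intro s; simp
  | cons b w ih =>
    intro s
    rw [List.foldl_cons]
    refine (ih _).trans ?_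
    cases b
    · have : bstep s false = (s.1 ++ [s.2], 0) := rfl
      rw [this]
      simp only [List.sum_append, List.sum_cons, List.sum_nil, List.length_append,
        List.length_cons, List.length_nil]
      omega
    · have : bstep s true = (s.1, s.2 + 1) := rfl
      rw [this]
      simp only [List.length_cons]
      omega

lemma ptf_blocks {w : α → List Bool} (hw : PTF w) : PTF (fun a => blocks (w a)) := by
  have h : PTF (fun w : List Bool => blocks w) := by
    refine PTF.foldl (l := fun w : List Bool => w) (g := fun _ => (([], 0) : List ℕ × ℕ))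
      (F := fun _ => bstep) PTF.id (PTF.const _) ?_ (5 * Polynomial.X + 1) ?_
    · have h1 : PTF (fun p : List Bool × (List ℕ × ℕ) × Bool =>
          if p.2.2 = true then (p.2.1.1, p.2.1.2 + 1) else (p.2.1.1 ++ [p.2.1.2], 0)) :=
        PTF.ite (PTF.eq PTF.id.snd.snd (PTF.const true))
          (PTF.pair PTF.id.snd.fst.fst (PTF.succ PTF.id.snd.fst.snd))
          (PTF.pair (PTF.append PTF.id.snd.fst.fst (PTF.cons PTF.id.snd.fst.snd (PTF.const [])))
            (PTF.const 0))
      exact h1
    · intro a t ht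
      have h1 := foldl_bstep_size t ([], 0)
      rw [length_enc_prod, length_enc_nats, length_enc_nat]
      have h2 := ht.length_le.trans (length_le_enc a)
      simp only [List.sum_nil, List.length_nil] at h1
      simp only [Polynomial.eval_add, Polynomial.eval_mul, Polynomial.eval_ofNat,
        Polynomial.eval_X, Polynomial.eval_one]
      omega
  exact h.comp hw

lemma ptf_validB {ms : α → List ℕ × ℕ} (h : PTF ms) : PTF (fun a => validB (ms a)) := by
  unfold validB
  refine PTF.and (PTF.eq h.snd (PTF.const 0)) (PTF.and (PTF.le (PTF.const 2) (PTF.length h.fst))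
    (PTF.and (PTF.le (PTF.const 1) (ptf_ent h.fst (PTF.const 1))) (PTF.and
      (PTF.eq (PTF.length (PTF.drop (PTF.const 2) h.fst)) (PTF.mul (ptf_ent h.fst (PTF.const 0))
        (ptf_ent h.fst (PTF.const 1)))) (PTF.all (PTF.drop (PTF.const 2) h.fst) ?_))))
  exact PTF.lt PTF.id.snd (ptf_ent (h.fst.comp PTF.id.fst) (PTF.const 0))

lemma ptf_certB {n k : α → ℕ} {hs ys : α → List ℕ} (hn : PTF n) (hk : PTF k) (hh : PTF hs)
    (hy : PTF ys) : PTF (fun a => certB (n a) (k a) (hs a) (ys a)) := by
  unfold certB
  refine PTF.and ?_ (PTF.and ?_ (PTF.and (PTF.or (PTF.eq hn (PTF.const 0)) ?_) (PTF.and ?_ ?_)))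
  · refine PTF.all (PTF.range hn) (PTF.all (PTF.range (hk.comp PTF.id.fst)) ?_)
    exact PTF.lt (ptf_ent (hy.comp PTF.id.fst.fst) (PTF.add (PTF.mul PTF.id.fst.snd
      (hk.comp PTF.id.fst.fst)) PTF.id.snd)) (hk.comp PTF.id.fst.fst)
  · refine PTF.all (PTF.range hn) (PTF.all (PTF.range (hk.comp PTF.id.fst))
      (PTF.any (PTF.range (hk.comp PTF.id.fst.fst)) ?_))
    exact PTF.eq (ptf_ent (hy.comp PTF.id.fst.fst.fst) (PTF.add (PTF.mul PTF.id.fst.fst.snd
      (hk.comp PTF.id.fst.fst.fst)) PTF.id.snd)) PTF.id.fst.snd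
  · refine PTF.any (PTF.range hn) (PTF.any (PTF.range (hn.comp PTF.id.fst)) ?_)
    exact PTF.eq (ptf_ent (hy.comp PTF.id.fst.fst) (PTF.add (PTF.mul (hn.comp PTF.id.fst.fst)
      (hk.comp PTF.id.fst.fst)) (PTF.add (PTF.mul PTF.id.fst.snd (hn.comp PTF.id.fst.fst))
        PTF.id.snd))) (PTF.const 1)
  · refine PTF.all (PTF.range hn) (PTF.not ?_)
    exact PTF.eq (ptf_ent (hy.comp PTF.id.fst) (PTF.add (PTF.mul (hn.comp PTF.id.fst)
      (hk.comp PTF.id.fst)) (PTF.add (PTF.mul PTF.id.snd (hn.comp PTF.id.fst))
        PTF.id.snd))) (PTF.const 1)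
  · refine PTF.all (PTF.range hn) (PTF.all (PTF.range (hn.comp PTF.id.fst))
      (PTF.all (PTF.range (hk.comp PTF.id.fst.fst)) ?_))
    have hn3 : PTF (fun p : ((α × ℕ) × ℕ) × ℕ => n p.1.1.1) := hn.comp PTF.id.fst.fst.fst
    have hk3 : PTF (fun p : ((α × ℕ) × ℕ) × ℕ => k p.1.1.1) := hk.comp PTF.id.fst.fst.fst
    have hh3 : PTF (fun p : ((α × ℕ) × ℕ) × ℕ => hs p.1.1.1) := hh.comp PTF.id.fst.fst.fst
    have hy3 : PTF (fun p : ((α × ℕ) × ℕ) × ℕ => ys p.1.1.1) := hy.comp PTF.id.fst.fst.fst
    have hp : PTF (fun p : ((α × ℕ) × ℕ) × ℕ => p.1.1.2) := PTF.id.fst.fst.snd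
    have hr : PTF (fun p : ((α × ℕ) × ℕ) × ℕ => p.1.2) := PTF.id.fst.snd
    have ha : PTF (fun p : ((α × ℕ) × ℕ) × ℕ => p.2) := PTF.id.snd
    refine PTF.or (PTF.not (PTF.eq (ptf_ent hy3 (PTF.add (PTF.mul hn3 hk3)
      (PTF.add (PTF.mul hp hn3) hr))) (PTF.const 1))) (PTF.eq (ptf_ent hy3 (PTF.add
      (PTF.mul hn3 hk3) (PTF.add (PTF.mul ?_ hn3) ?_))) (PTF.const 1))
    · exact ptf_ent hh3 (PTF.add (PTF.mul hp hk3) (ptf_ent hy3 (PTF.add (PTF.mul hp hk3) ha)))
    · exact ptf_ent hh3 (PTF.add (PTF.mul hr hk3) (ptf_ent hy3 (PTF.add (PTF.mul hr hk3) ha)))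

lemma ptf_verifier : PTF verifier := by
  have h : PTF (fun a : List Bool × List Bool =>
      !(validB (blocks a.1)) || certB (ent (blocks a.1).1 0) (ent (blocks a.1).1 1)
        ((blocks a.1).1.drop 2) (blocks a.2).1) := by
    have hb := ptf_blocks (α := List Bool × List Bool) PTF.id.fst
    have hb2 := ptf_blocks (α := List Bool × List Bool) PTF.id.snd
    exact PTF.or (PTF.not (ptf_validB hb)) (ptf_certB (ptf_ent hb.fst (PTF.const 0))
      (ptf_ent hb.fst (PTF.const 1)) (PTF.drop (PTF.const 2) hb.fst) hb2.fst)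
  exact h

end ptime

/-- TOTSYNC is in coNP. -/
theorem totsync_inCoNP : InCoNP TOTSYNC := by
  refine ⟨3 * Polynomial.X ^ 2, verifier, tm2_of_ptf ptf_verifier, fun w => ?_⟩
  rw [Set.mem_compl_iff]
  simp only [verifier, Bool.or_eq_true, Bool.not_eq_true']
  by_cases hval : validB (blocks w) = true
  · obtain ⟨n, k, head, hk, hw⟩ := (validB_iff w).1 hval
    have hb : blocks w = (n :: k :: table fun v a => (head v a).val, 0) := by
      rw [hw, encode_eq, blocks_flatMap, nums_eq]
    have e0 : ent (blocks w).1 0 = n := by rw [hb]; rfl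
    have e1 : ent (blocks w).1 1 = k := by rw [hb]; rfl
    have e2 : (blocks w).1.drop 2 = table fun v a => (head v a).val := by rw [hb]; rfl
    rw [e0, e1, e2]
    have hmem : w ∈ TOTSYNC ↔ TotallySync head := by
      constructor
      · rintro ⟨n', k', head', -, h1, h2⟩
        rw [hw] at h1
        exact encode_inj h1 h2
      · intro h
        exact ⟨n, k, head, hk, hw, h⟩
    rw [hmem]
    constructor
    · intro h
      obtain ⟨ys, h1, h2⟩ := cert_complete head h
      refine ⟨ys.flatMap unary, ?_, Or.inr (by rw [blocks_flatMap]; exact h1)⟩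
      have hlen : n * k + n + k + 2 ≤ w.length := by
        rw [hw, encode_eq, nums_eq, List.flatMap_cons, List.flatMap_cons, List.length_append,
          List.length_append]
        have h3 : ∀ l : List ℕ, l.length ≤ (l.flatMap unary).length := by
          intro l
          induction l with
          | nil => simp
          | cons m l ih =>
            rw [List.flatMap_cons, List.length_append, List.length_cons]
            have : (unary m).length = m + 1 := by simp [unary]
            omega
        have h4 := h3 (table fun v a => (head v a).val)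
        rw [length_table] at h4
        have h5 : ∀ m, (unary m).length = m + 1 := by intro m; simp [unary]
        rw [h5, h5]
        omega
      refine h2.trans ?_
      simp only [Polynomial.eval_mul, Polynomial.eval_ofNat, Polynomial.eval_pow,
        Polynomial.eval_X]
      have h6 : n * k * (k + 1) ≤ w.length * w.length :=
        Nat.mul_le_mul (by omega) (by omega)
      have h7 : n * n ≤ w.length * w.length := Nat.mul_le_mul (by omega) (by omega)
      rw [pow_two]
      omega
    · rintro ⟨y, -, h | h⟩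
      · rw [h] at hval; simp at hval
      · exact cert_sound head h
  · constructor
    · intro _
      exact ⟨[], by simp, Or.inl (by simpa using hval)⟩
    · rintro - ⟨n, k, head, hk, hw, -⟩
      exact hval ((validB_iff w).2 ⟨n, k, head, hk, hw⟩)

end Pool.Agent.Helper87.TotSync
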