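import Pool.Agent.Helper87.TotSync.Names

/-!
# The digraph on numbers
-/

open Finset Function

namespace Pool.Agent.Helper87.TotSync

/-- Total synchronizability is invariant under isomorphism. -/
theorem totallySync_congr {V A V' A' : Type*} (eV : V ≃ V') (eA : A ≃ A') (head : V → A → V)
    (head' : V' → A' → V') (h : ∀ v a, head' (eV v) (eA a) = eV (head v a)) :
    TotallySync head' ↔ TotallySync head := by
  have hrun : ∀ (σ : V → Equiv.Perm A) (σ' : V' → Equiv.Perm A')
      (_ : ∀ v a, σ' (eV v) (eA a) = eA (σ v a)) (w : List A) (v : V),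
      run (fun v a => head' v (σ' v a)) (eV v) (w.map eA) =
        eV (run (fun v a => head v (σ v a)) v w) := by
    intro σ σ' hσ w
    induction w with
    | nil => intro v; rfl
    | cons a w ih =>
      intro v
      simp only [List.map_cons, run_cons, hσ, h]
      exact ih _
  constructor
  · intro H σ
    let σ' : V' → Equiv.Perm A' := fun v => (eA.symm.trans (σ (eV.symm v))).trans eA
    have hσ : ∀ v a, σ' (eV v) (eA a) = eA (σ v a) := by
      intro v a; simp [σ']
    obtain ⟨w, s, hw⟩ := H σ'
    refine ⟨w.map eA.symm, eV.symm s, fun v => ?_⟩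
    apply eV.injective
    rw [← hrun σ σ' hσ]
    simp [hw]
  · intro H σ'
    let σ : V → Equiv.Perm A := fun v => (eA.trans (σ' (eV v))).trans eA.symm
    have hσ : ∀ v a, σ' (eV v) (eA a) = eA (σ v a) := by
      intro v a; simp [σ]
    obtain ⟨w, s, hw⟩ := H σ
    refine ⟨w.map eA, eV s, fun v => ?_⟩
    have := hrun σ σ' hσ w (eV.symm v)
    rw [Equiv.apply_symm_apply] at this
    rw [this, hw]

/-- The head of the edge `a` of the vertex `v`. -/
def headN (t q : ℕ) (nxt : ℕ → Option ℕ) (v a : ℕ) : ℕ :=
  if v % 4 = 0 then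
    if a < 3 then 4 * (if v / 4 + 1 = q then 0 else v / 4 + 1) + (a + 1) else v
  else if a < 3 then 4 * (v / 4)
  else 4 * ((if 3 * (v / 4) + (v % 4 - 1) = xN t (a - 3) then yN t nxt (a - 3)
    else if 3 * (v / 4) + (v % 4 - 1) = yN t nxt (a - 3) then xN t (a - 3)
    else 3 * (v / 4) + (v % 4 - 1)) / 3)

variable {q : ℕ} [NeZero q]

/-- numbering of the vertices -/
def eV (q : ℕ) : Vtx q ≃ Fin (q * 4) :=
  (Equiv.prodCongr (Equiv.refl _) (finSuccEquiv 3).symm).trans finProdFinEquiv

omit [NeZero q] in
lemma eV_none (i : Fin q) : (eV q (i, none)).val = 4 * i.val := by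
  simp [eV, finProdFinEquiv]

omit [NeZero q] in
lemma eV_some (i : Fin q) (l : Fin 3) : (eV q (i, some l)).val = 4 * i.val + (l.val + 1) := by
  simp [eV, finProdFinEquiv]; ring

lemma dec_eq {c : ℕ} (hc : c < 3 * q) (i : Fin q) (l : Fin 3) :
    (i, l) = dec q c ↔ 3 * i.val + l.val = c := by
  rw [Prod.ext_iff, Fin.ext_iff, Fin.ext_iff, dec_fst hc, dec_snd]
  simp only
  omega

/-- The digraph of stars on numbers. -/
def headF (t q : ℕ) [NeZero q] (nxt : ℕ → Option ℕ) (L : ℕ) (v : Fin (q * 4)) (a : Fin (3 + L)) :
    Fin (q * 4) :=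
  eV q (headS (xF t q L) (yF t nxt q L) ((eV q).symm v) (finSumFinEquiv.symm a))

theorem headF_val (t : ℕ) (nxt : ℕ → Option ℕ) (hnxt : ∀ j < 3 * t, ∀ j', nxt j = some j' →
    j' < 3 * t) (hq : 4 * t ≤ q) (hq1 : 1 < q) (L : ℕ) (v : Fin (q * 4)) (a : Fin (3 + L)) :
    (headF t q nxt L v a).val = headN t q nxt v.val a.val := by
  obtain ⟨v, rfl⟩ := (eV q).surjective v
  obtain ⟨a, rfl⟩ := finSumFinEquiv.surjective a
  unfold headF
  rw [Equiv.symm_apply_apply, Equiv.symm_apply_apply]
  obtain ⟨i, _ | l⟩ := v
  · rcases a with l | lam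
    · simp only [headS]
      rw [eV_none, eV_some, finSumFinEquiv_apply_left, Fin.val_castAdd]
      unfold headN
      rw [if_pos (by omega), if_pos l.2]
      have h1 : (i + 1).val = if i.val + 1 = q then 0 else i.val + 1 := by
        rw [Fin.val_add, Fin.val_one' q, Nat.mod_eq_of_lt hq1]
        split_ifs with h
        · rw [h, Nat.mod_self]
        · exact Nat.mod_eq_of_lt (by omega)
      rw [h1]
      have h2 : 4 * i.val / 4 = i.val := by omega
      rw [h2]
    · simp only [headS]
      rw [eV_none, finSumFinEquiv_apply_right, Fin.val_natAdd]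
      unfold headN
      rw [if_pos (by omega), if_neg (by omega)]
  · rcases a with l' | lam
    · simp only [headS]
      rw [eV_none, eV_some, finSumFinEquiv_apply_left, Fin.val_castAdd]
      unfold headN
      rw [if_neg (by omega), if_pos l'.2]
      omega
    · simp only [headS]
      rw [eV_none, eV_some, finSumFinEquiv_apply_right, Fin.val_natAdd]
      unfold headN
      rw [if_neg (by omega), if_neg (by omega)]
      have h1 : 3 + lam.val - 3 = lam.val := by omega
      have h2 : 3 * ((4 * i.val + (l.val + 1)) / 4) + ((4 * i.val + (l.val + 1)) % 4 - 1) =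
          3 * i.val + l.val := by omega
      rw [h1, h2]
      have hx : xN t lam < 3 * q := by
        unfold xN
        split_ifs <;> omega
      have hy : yN t nxt lam < 3 * q := by
        unfold yN
        split_ifs with h3 h4
        · omega
        · omega
        · cases hz : nxt (lam.val / 3) with
          | none => simp only [Option.getD_none]; omega
          | some j' =>
            simp only [Option.getD_some]
            have := hnxt _ (by omega) _ hz
            omega
      congr 1
      by_cases h3 : 3 * i.val + l.val = xN t lam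
      · rw [if_pos h3]
        have h4 : (i, l) = xF t q L lam := (dec_eq hx i l).2 h3
        rw [h4, Equiv.swap_apply_left]
        exact dec_fst hy
      · rw [if_neg h3]
        have h3' : (i, l) ≠ xF t q L lam := fun h => h3 ((dec_eq hx i l).1 h)
        by_cases h4 : 3 * i.val + l.val = yN t nxt lam
        · rw [if_pos h4]
          have h5 : (i, l) = yF t nxt q L lam := (dec_eq hy i l).2 h4
          rw [h5, Equiv.swap_apply_right]
          exact dec_fst hx
        · rw [if_neg h4]
          have h4' : (i, l) ≠ yF t nxt q L lam := fun h => h4 ((dec_eq hy i l).1 h)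
          rw [Equiv.swap_apply_of_ne_of_ne h3' h4']
          simp only
          omega

/-- **The reduction.** -/
theorem totallySync_headF_iff {β : Type*} [DecidableEq β] [Inhabited β]
    (T : List (β × (β × β))) (hqp : q.Prime) (hq : 4 * T.length ≤ q) (L : ℕ)
    (hL : 3 * q + 18 * T.length ≤ L) :
    TotallySync (headF T.length q (nxtL (occs T)) L) ↔ ¬ ∃ c : β → Fin 3, ∀ t ∈ T, Rb c t := by
  have hn := isNext_nxtL (occs T) T.length (length_occs T)
  rw [totallySync_congr (eV q) finSumFinEquiv
    (headS (xF T.length q L) (yF T.length (nxtL (occs T)) q L)) _ (by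
      intro v a
      simp [headF])]
  rw [← rainbow_iff T]
  constructor
  · rintro h ⟨c, hc⟩
    exact not_totallySync_of_rainbow hn hqp.one_lt hq L hc h
  · intro h
    by_contra h'
    exact h (rainbow_of_not_totallySync hn hqp hq L hL h')

/-! ### Primes -/

/-- primality by trial division -/
def isPrimeB (p : ℕ) : Bool :=
  decide (2 ≤ p) && (List.range p).all fun a => (List.range p).all fun b => !decide (a * b = p)

lemma isPrimeB_iff (p : ℕ) : isPrimeB p = true ↔ p.Prime := by
  simp only [isPrimeB, Bool.and_eq_true, decide_eq_true_eq, List.all_eq_true, List.mem_range,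
    Bool.not_eq_true', decide_eq_false_iff_not]
  constructor
  · rintro ⟨h2, h⟩
    by_contra hp
    obtain ⟨m, ⟨c, hc⟩, h3, h4⟩ := Nat.exists_dvd_of_not_prime2 h2 hp
    refine h m h4 c ?_ hc.symm
    rcases Nat.eq_zero_or_pos c with h0 | h0
    · subst h0; omega
    · nlinarith
  · intro hp
    refine ⟨hp.two_le, fun a ha b hb hab => ?_⟩
    have h1 : a ∣ p := ⟨b, hab.symm⟩
    rcases (Nat.dvd_prime hp).1 h1 with h | h
    · subst h; omega
    · omega

/-- a prime above `m` -/
def primeAbove (m : ℕ) : ℕ :=
  (((List.range (2 * m + 1)).filter fun p => decide (m < p) && isPrimeB p).head?).getD 2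

lemma primeAbove_spec {m : ℕ} (hm : m ≠ 0) : (primeAbove m).Prime ∧ m < primeAbove m := by
  obtain ⟨p, hp, h1, h2⟩ := Nat.exists_prime_lt_and_le_two_mul m hm
  have hmem : p ∈ (List.range (2 * m + 1)).filter fun p => decide (m < p) && isPrimeB p := by
    simp only [List.mem_filter, List.mem_range, Bool.and_eq_true, decide_eq_true_eq,
      isPrimeB_iff]
    exact ⟨by omega, h1, hp⟩
  unfold primeAbove
  cases hx : (List.range (2 * m + 1)).filter fun p => decide (m < p) && isPrimeB p with
  | nil => rw [hx] at hmem; simp at hmem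
  | cons a r =>
    have ha : a ∈ (List.range (2 * m + 1)).filter fun p => decide (m < p) && isPrimeB p := by
      rw [hx]; simp
    simp only [List.mem_filter, List.mem_range, Bool.and_eq_true, decide_eq_true_eq,
      isPrimeB_iff] at ha
    exact ⟨ha.2.2, ha.2.1⟩

end Pool.Agent.Helper87.TotSync
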