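import Pool.Agent.Helper87.TotSync.Concrete
import Pool.Agent.Helper87.TotSync.Lang
import Pool.Agent.Helper87.NP.Arith
import Pool.Agent.Helper87.NP.Cnf

/-!
# TOTSYNC is coNP-hard
-/

open Function
open Pool.Agent.Helper91.PolyTime Pool.Agent.Helper91.Reduction Pool.Agent.Helper91.Verifier
open Pool.Agent.Helper87.NP

namespace Pool.Agent.Helper87.TotSync

/-- the string of the digraph of a list of triples, as it is computed -/
def str {β : Type*} [DecidableEq β] (T : List (β × (β × β))) : List Bool :=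
  unary (primeAbove (4 * T.length + 1) * 4) ++
    (unary (3 + (3 * primeAbove (4 * T.length + 1) + 18 * T.length)) ++
    (List.range (primeAbove (4 * T.length + 1) * 4)).flatMap fun v =>
      (List.range (3 + (3 * primeAbove (4 * T.length + 1) + 18 * T.length))).flatMap fun a =>
      unary (headN T.length (primeAbove (4 * T.length + 1)) (nxtL (occs T)) v a))

lemma primeAbove_ne (m : ℕ) (hm : m ≠ 0) : NeZero (primeAbove m) :=
  ⟨(primeAbove_spec hm).1.ne_zero⟩

lemma ofFn_val {γ : Type*} (n : ℕ) (g : ℕ → γ) :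
    (List.ofFn fun i : Fin n => g i.val) = (List.range n).map g := by
  rw [List.ofFn_eq_map, ← List.map_coe_finRange_eq_range, List.map_map]
  rfl

theorem str_eq {β : Type*} [DecidableEq β] (T : List (β × (β × β)))
    [NeZero (primeAbove (4 * T.length + 1))] :
    str T = encode (primeAbove (4 * T.length + 1) * 4)
      (3 + (3 * primeAbove (4 * T.length + 1) + 18 * T.length))
      (headF T.length (primeAbove (4 * T.length + 1)) (nxtL (occs T))
        (3 * primeAbove (4 * T.length + 1) + 18 * T.length)) := by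
  have hp := primeAbove_spec (m := 4 * T.length + 1) (by omega)
  have hn := isNext_nxtL (occs T) T.length (length_occs T)
  unfold str encode
  congr 2
  have h1 : ∀ v : Fin (primeAbove (4 * T.length + 1) * 4),
      (List.ofFn fun a => unary (headF T.length (primeAbove (4 * T.length + 1)) (nxtL (occs T))
        (3 * primeAbove (4 * T.length + 1) + 18 * T.length) v a)).flatten =
      (List.range (3 + (3 * primeAbove (4 * T.length + 1) + 18 * T.length))).flatMap fun a =>
        unary (headN T.length (primeAbove (4 * T.length + 1)) (nxtL (occs T)) v.val a) := by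
    intro v
    rw [List.flatMap_def, ← ofFn_val]
    congr 2
    funext a
    rw [headF_val _ _ (fun j hj j' h => (hn.isome j hj j' h).2.1) (by omega) hp.1.one_lt]
  simp only [h1]
  rw [List.flatMap_def, ← ofFn_val]

lemma encode_inj {n k n' k' : ℕ} {head : Fin n → Fin k → Fin n} {head' : Fin n' → Fin k' → Fin n'}
    (h : encode n k head = encode n' k' head') (h' : TotallySync head') : TotallySync head := by
  rw [encode_eq, encode_eq] at h
  have h1 := congrArg blocks h
  rw [blocks_flatMap, blocks_flatMap] at h1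
  have h2 : nums n k head = nums n' k' head' := congrArg Prod.fst h1
  simp only [nums_eq, List.cons.injEq] at h2
  obtain ⟨rfl, rfl, h3⟩ := h2
  have h4 : head = head' := by
    funext v a
    have e1 := getElem?_table (fun v a => (head v a).val) v a
    have e2 := getElem?_table (fun v a => (head' v a).val) v a
    rw [h3, e2] at e1
    apply Fin.ext
    simpa using e1.symm
  rw [h4]; exact h'

/-- Correctness of the reduction on strings. -/
theorem str_mem_iff {β : Type*} [DecidableEq β] [Inhabited β] (T : List (β × (β × β))) :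
    str T ∈ TOTSYNC ↔ ¬ ∃ c : β → Fin 3, ∀ t ∈ T, Rb c t := by
  have hp := primeAbove_spec (m := 4 * T.length + 1) (by omega)
  haveI := primeAbove_ne (4 * T.length + 1) (by omega)
  have key := totallySync_headF_iff (q := primeAbove (4 * T.length + 1)) T hp.1 (by omega)
    (3 * primeAbove (4 * T.length + 1) + 18 * T.length) (by omega)
  rw [← key]
  constructor
  · rintro ⟨n, k, head, -, h1, h2⟩
    rw [str_eq] at h1
    exact encode_inj h1 h2
  · intro h
    exact ⟨_, _, _, by omega, str_eq T, h⟩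

/-! ### Polynomial-time computability -/

section ptime

variable {α : Type*} [PEnc α]

lemma ptf_unary {m : α → ℕ} (hm : PTF m) : PTF (fun a => unary (m a)) := by
  unfold unary
  exact PTF.append (ptf_replicate hm (PTF.const true)) (PTF.const [false])

lemma ptf_isPrimeB {m : α → ℕ} (hm : PTF m) : PTF (fun a => isPrimeB (m a)) := by
  unfold isPrimeB
  refine PTF.and (PTF.le (PTF.const 2) hm) (PTF.all (PTF.range hm)
    (PTF.all (PTF.range (hm.comp PTF.id.fst)) (PTF.not (PTF.eq (PTF.mul PTF.id.fst.snd PTF.id.snd)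
      (hm.comp PTF.id.fst.fst)))))

lemma ptf_primeAbove {m : α → ℕ} (hm : PTF m) : PTF (fun a => primeAbove (m a)) := by
  unfold primeAbove
  refine ptf_getD (PTF.head? (PTF.filter (PTF.range (PTF.succ (PTF.mul (PTF.const 2) hm))) ?_))
    (PTF.const 2)
  exact PTF.and (PTF.lt (hm.comp PTF.id.fst) PTF.id.snd) (ptf_isPrimeB PTF.id.snd)

lemma ptf_xN {t lam : α → ℕ} (ht : PTF t) (hl : PTF lam) : PTF (fun a => xN (t a) (lam a)) := by
  unfold xN
  have hj := ptf_div hl 3 (by omega)
  refine PTF.ite (PTF.le (PTF.mul (PTF.const 3) ht) hj) (PTF.const 0)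
    (PTF.ite (PTF.eq (ptf_mod hl 3 (by omega)) (PTF.const 0)) hj
      (PTF.mul (PTF.const 3) (PTF.add ht hj)))

variable {β : Type*} [PEnc β] [DecidableEq β]

lemma ptf_nxtL {l : α → List β} {j : α → ℕ} (hl : PTF l) (hj : PTF j) :
    PTF (fun a => nxtL (l a) (j a)) := by
  unfold nxtL
  refine PTF.head? (PTF.filter (PTF.range (PTF.length hl)) ?_)
  exact PTF.and (PTF.lt (hj.comp PTF.id.fst) PTF.id.snd)
    (PTF.eq (PTF.getElem? PTF.id.snd (hl.comp PTF.id.fst))
      (PTF.getElem? (hj.comp PTF.id.fst) (hl.comp PTF.id.fst)))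

lemma ptf_yN {t lam : α → ℕ} {l : α → List β} (ht : PTF t) (hl : PTF lam) (hll : PTF l) :
    PTF (fun a => yN (t a) (nxtL (l a)) (lam a)) := by
  unfold yN
  have hj := ptf_div hl 3 (by omega)
  refine PTF.ite (PTF.le (PTF.mul (PTF.const 3) ht) hj) (PTF.const 0)
    (PTF.ite (PTF.eq (ptf_mod hl 3 (by omega)) (PTF.const 0))
      (PTF.mul (PTF.const 3) (PTF.add ht hj))
      (ptf_getD (ptf_nxtL hll hj) (PTF.mul (PTF.const 3) (PTF.add ht hj))))

lemma ptf_headN {t q v a' : α → ℕ} {l : α → List β} (ht : PTF t) (hq : PTF q) (hv : PTF v)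
    (ha : PTF a') (hll : PTF l) : PTF (fun a => headN (t a) (q a) (nxtL (l a)) (v a) (a' a)) := by
  unfold headN
  have h4 := ptf_div hv 4 (by omega)
  have m4 := ptf_mod hv 4 (by omega)
  have hu : PTF (fun a => 3 * (v a / 4) + (v a % 4 - 1)) :=
    PTF.add (PTF.mul (PTF.const 3) h4) (PTF.pred m4)
  have h3 : PTF (fun a => a' a - 3) := PTF.sub ha (PTF.const 3)
  have hx := ptf_xN ht h3
  have hy := ptf_yN ht h3 hll
  refine PTF.ite (PTF.eq m4 (PTF.const 0)) (PTF.ite (PTF.lt ha (PTF.const 3)) ?_ hv)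
    (PTF.ite (PTF.lt ha (PTF.const 3)) (PTF.mul (PTF.const 4) h4) ?_)
  · exact PTF.add (PTF.mul (PTF.const 4) (PTF.ite (PTF.eq (PTF.succ h4) hq) (PTF.const 0)
      (PTF.succ h4))) (PTF.succ ha)
  · exact PTF.mul (PTF.const 4) (ptf_div (PTF.ite (PTF.eq hu hx) hy
      (PTF.ite (PTF.eq hu hy) hx hu)) 3 (by omega))

omit [DecidableEq β] in
lemma ptf_occs {T : α → List (β × (β × β))} (hT : PTF T) : PTF (fun a => occs (T a)) := by
  unfold occs
  exact PTF.flatMap hT (PTF.cons PTF.id.snd.fst (PTF.cons PTF.id.snd.snd.fst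
    (PTF.cons PTF.id.snd.snd.snd (PTF.const []))))

lemma ptf_str {T : α → List (β × (β × β))} (hT : PTF T) : PTF (fun a => str (T a)) := by
  unfold str
  have ht := PTF.length hT
  have hq : PTF (fun a => primeAbove (4 * (T a).length + 1)) :=
    ptf_primeAbove (PTF.succ (PTF.mul (PTF.const 4) ht))
  have hk : PTF (fun a => 3 + (3 * primeAbove (4 * (T a).length + 1) + 18 * (T a).length)) :=
    PTF.add (PTF.const 3) (PTF.add (PTF.mul (PTF.const 3) hq) (PTF.mul (PTF.const 18) ht))
  have hn : PTF (fun a => primeAbove (4 * (T a).length + 1) * 4) := PTF.mul hq (PTF.const 4)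
  refine PTF.append (ptf_unary hn) (PTF.append (ptf_unary hk) (PTF.flatMap (PTF.range hn)
    (PTF.flatMap (PTF.range (hk.comp PTF.id.fst)) (ptf_unary ?_))))
  exact ptf_headN (ht.comp PTF.id.fst.fst) (hq.comp PTF.id.fst.fst) PTF.id.fst.snd PTF.id.snd
    ((ptf_occs hT).comp PTF.id.fst.fst)

variable {ν : Type*} [PEnc ν]

omit [DecidableEq β] in
lemma ptf_pal (p : Fin 3) : PTF (fun _ : α => (pal p : Name ν)) := PTF.const _

lemma ptf_lit {l : α → ν × Bool} (hl : PTF l) : PTF (fun a => lit (l a)) := by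
  unfold lit
  exact PTF.inr (PTF.inl hl)

lemma ptf_nod {C : α → List (ν × Bool)} {j : α → ℕ} (hC : PTF C) (hj : PTF j) (k : Fin 6) :
    PTF (fun a => nod (C a) (j a) k) := by
  unfold nod
  exact PTF.inr (PTF.inr (PTF.pair hC (PTF.pair hj (PTF.const k))))

lemma ptf_litTrips {C : α → List (ν × Bool)} {j : α → ℕ} {l : α → ν × Bool} (hC : PTF C)
    (hj : PTF j) (hl : PTF l) : PTF (fun a => litTrips (C a) (j a) (l a)) := by
  unfold litTrips
  have hj1 := PTF.succ hj
  refine PTF.cons (PTF.pair (ptf_lit (PTF.pair hl.fst (PTF.const true)))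
    (PTF.pair (ptf_lit (PTF.pair hl.fst (PTF.const false))) (ptf_pal 2))) ?_
  refine PTF.cons (PTF.pair (ptf_nod hC hj 1) (PTF.pair (ptf_nod hC hj 2) (ptf_nod hC hj1 0))) ?_
  refine PTF.cons (PTF.pair (ptf_nod hC hj 0) (PTF.pair (ptf_nod hC hj 1) (ptf_nod hC hj 3))) ?_
  refine PTF.cons (PTF.pair (ptf_lit hl) (PTF.pair (ptf_nod hC hj 2) (ptf_nod hC hj 4))) ?_
  exact PTF.cons (PTF.pair (ptf_nod hC hj1 0) (PTF.pair (ptf_pal 2) (ptf_nod hC hj 5)))
    (PTF.const [])

lemma ptf_clauseTrips {C : α → List (ν × Bool)} (hC : PTF C) :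
    PTF (fun a => clauseTrips (C a)) := by
  have h : PTF (fun a => (nod (C a) 0 0, (pal 0, pal 2)) ::
      (nod (C a) (C a).length 0, (pal 1, pal 2)) :: (List.range (C a).length).flatMap fun j =>
      (match (C a)[j]? with
      | none => []
      | some l => litTrips (C a) j l)) := by
    refine PTF.cons (PTF.pair (ptf_nod hC (PTF.const 0) 0) (PTF.pair (ptf_pal 0) (ptf_pal 2))) ?_
    refine PTF.cons (PTF.pair (ptf_nod hC (PTF.length hC) 0) (PTF.pair (ptf_pal 1) (ptf_pal 2))) ?_
    refine PTF.flatMap (PTF.range (PTF.length hC)) ?_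
    have h1 := PTF.optCase (α := α × ℕ) (o := fun p => (C p.1)[p.2]?) (n := fun _ => [])
      (s := fun p l => litTrips (C p.1) p.2 l)
      (PTF.getElem? PTF.id.snd (hC.comp PTF.id.fst)) (PTF.const [])
      (ptf_litTrips (hC.comp PTF.id.fst.fst) PTF.id.fst.snd PTF.id.snd)
    refine h1.of_eq fun p => ?_
    cases (C p.1)[p.2]? <;> rfl
  exact h

lemma ptf_trips {φ : α → Cnf ν} (hφ : PTF φ) : PTF (fun a => trips (φ a)) := by
  unfold trips
  exact PTF.cons (PTF.pair (ptf_pal 0) (PTF.pair (ptf_pal 1) (ptf_pal 2)))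
    (PTF.flatMap hφ (ptf_clauseTrips PTF.id.snd))

end ptime

/-- TOTSYNC is coNP-hard. -/
theorem totsync_hard (L : Set (List Bool)) (hL : InCoNP L) : Reduces L TOTSYNC := by
  obtain ⟨ν, hν, hdec, f, hf, hfL⟩ := exists_cnf hL
  refine ⟨fun x => str (trips (f x)), ?_, fun x => ?_⟩
  · refine tm2_of_ptf_str ?_
    exact PTF.strOfList (ptf_str (ptf_trips (hf.comp (PTF.strToList PTF.id))))
  · haveI : Inhabited (Name ν) := ⟨pal 0⟩
    rw [str_mem_iff, rb_iff_sat, ← not_iff_not, not_not]
    exact hfL x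

end Pool.Agent.Helper87.TotSync
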