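import Pool.Agent.Helper87.TotSync.Sound

/-!
# The digraph of a list of triples of names
-/

open Finset Function

namespace Pool.Agent.Helper87.TotSync

/-- the code `c` of the vertex at position `c % 3` of the star `c / 3` -/
def dec (q : ℕ) [NeZero q] (c : ℕ) : Fin q × Fin 3 := (Fin.ofNat q (c / 3), Fin.ofNat 3 c)

/-- the code of the first vertex of a letter -/
def xN (t : ℕ) (lam : ℕ) : ℕ :=
  if 3 * t ≤ lam / 3 then 0 else if lam % 3 = 0 then lam / 3 else 3 * (t + lam / 3)

/-- the code of the second vertex of a letter -/
def yN (t : ℕ) (nxt : ℕ → Option ℕ) (lam : ℕ) : ℕ :=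
  if 3 * t ≤ lam / 3 then 0 else if lam % 3 = 0 then 3 * (t + lam / 3) else
    (nxt (lam / 3)).getD (3 * (t + lam / 3))

variable {α : Type*} (nm : ℕ → α) (t : ℕ) (nxt : ℕ → Option ℕ) (q : ℕ) [NeZero q]

/-- `nxt j` is the next occurrence of the name of the occurrence `j` -/
structure IsNext : Prop where
  isome : ∀ j < 3 * t, ∀ j', nxt j = some j' → j < j' ∧ j' < 3 * t ∧ nm j' = nm j
  next : ∀ j j'', j < j'' → j'' < 3 * t → nm j'' = nm j → ∃ j', nxt j = some j' ∧ j' ≤ j''

/-- A colouring of names that is injective on each triple. -/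
def Rainbow (c : α → Fin 3) : Prop :=
  ∀ i < t, ∀ l l' : Fin 3, c (nm (3 * i + l)) = c (nm (3 * i + l')) → l = l'

/-- the vertices of the letters -/
def xF (L : ℕ) (lam : Fin L) : Fin q × Fin 3 := dec q (xN t lam)

/-- the vertices of the letters -/
def yF (L : ℕ) (lam : Fin L) : Fin q × Fin 3 := dec q (yN t nxt lam)

variable {nm t nxt q}

lemma dec_fst {c : ℕ} (h : c < 3 * q) : ((dec q c).1 : ℕ) = c / 3 := by
  simp only [dec, Fin.val_ofNat]
  exact Nat.mod_eq_of_lt (by omega)

lemma dec_snd (c : ℕ) : ((dec q c).2 : ℕ) = c % 3 := by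
  simp [dec, Fin.val_ofNat]

lemma card_extra_lt (L : ℕ) (hL : 3 * q + 18 * t ≤ L) :
    (extra (xF t q L) (yF t nxt q L)).card < 3 + Fintype.card (Fin L) := by
  classical
  rw [Fintype.card_fin]
  have hsub : extra (xF t q L) (yF t nxt q L) ⊆
      ((univ : Finset (Fin q × Fin 3)).image fun p => (((p.1, none) : Vtx q),
        (Sum.inl p.2 : Fin 3 ⊕ Fin L))) ∪
      (((univ.filter fun lam : Fin L => lam.val < 9 * t).image fun lam =>
        ((((xF t q L lam).1, some (xF t q L lam).2) : Vtx q), (Sum.inr lam : Fin 3 ⊕ Fin L))) ∪
      ((univ.filter fun lam : Fin L => lam.val < 9 * t).image fun lam =>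
        ((((yF t nxt q L lam).1, some (yF t nxt q L lam).2) : Vtx q),
          (Sum.inr lam : Fin 3 ⊕ Fin L)))) := by
    rintro ⟨⟨i, _ | l⟩, l' | lam⟩ h
    · simp
    · simp [extra, headS] at h
    · simp [extra, headS] at h
    · simp only [extra, mem_filter, mem_univ, true_and, headS] at h
      by_cases h1 : (i, l) = xF t q L lam
      · have h9 : lam.val < 9 * t := by
          by_contra h9
          apply h
          have : xF t q L lam = yF t nxt q L lam := by
            simp only [xF, yF, xN, yN]
            rw [if_pos (by omega), if_pos (by omega)]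
          rw [this]; simp
        simp only [mem_union, mem_image, mem_filter, mem_univ, true_and]
        refine Or.inr (Or.inl ⟨lam, h9, ?_⟩)
        rw [← h1]
      · by_cases h2 : (i, l) = yF t nxt q L lam
        · have h9 : lam.val < 9 * t := by
            by_contra h9
            apply h
            have : xF t q L lam = yF t nxt q L lam := by
              simp only [xF, yF, xN, yN]
              rw [if_pos (by omega), if_pos (by omega)]
            rw [this]; simp
          simp only [mem_union, mem_image, mem_filter, mem_univ, true_and]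
          refine Or.inr (Or.inr ⟨lam, h9, ?_⟩)
          rw [← h2]
        · rw [Equiv.swap_apply_of_ne_of_ne h1 h2] at h
          exact absurd rfl h
  have hc : (univ.filter fun lam : Fin L => lam.val < 9 * t).card ≤ 9 * t := by
    have : ((univ.filter fun lam : Fin L => lam.val < 9 * t).image Fin.val) ⊆ range (9 * t) := by
      intro n hn
      simp only [mem_image, mem_filter, mem_univ, true_and] at hn
      obtain ⟨lam, h, rfl⟩ := hn
      exact mem_range.2 h
    have h1 := Finset.card_le_card this
    rw [Finset.card_image_of_injective _ Fin.val_injective, card_range] at h1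
    exact h1
  have h1 := Finset.card_le_card hsub
  have h2 := h1.trans (Finset.card_union_le _ _)
  have h3 := Finset.card_union_le
    ((univ.filter fun lam : Fin L => lam.val < 9 * t).image fun lam =>
        ((((xF t q L lam).1, some (xF t q L lam).2) : Vtx q), (Sum.inr lam : Fin 3 ⊕ Fin L)))
    ((univ.filter fun lam : Fin L => lam.val < 9 * t).image fun lam =>
        ((((yF t nxt q L lam).1, some (yF t nxt q L lam).2) : Vtx q),
          (Sum.inr lam : Fin 3 ⊕ Fin L)))
  have h4 : ((univ : Finset (Fin q × Fin 3)).image fun p => (((p.1, none) : Vtx q),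
        (Sum.inl p.2 : Fin 3 ⊕ Fin L))).card ≤ q * 3 := by
    refine Finset.card_image_le.trans ?_
    simp
  have h5 := (Finset.card_image_le (s := univ.filter fun lam : Fin L => lam.val < 9 * t)
    (f := fun lam => ((((xF t q L lam).1, some (xF t q L lam).2) : Vtx q),
      (Sum.inr lam : Fin 3 ⊕ Fin L)))).trans hc
  have h6 := (Finset.card_image_le (s := univ.filter fun lam : Fin L => lam.val < 9 * t)
    (f := fun lam => ((((yF t nxt q L lam).1, some (yF t nxt q L lam).2) : Vtx q),
      (Sum.inr lam : Fin 3 ⊕ Fin L)))).trans hc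
  omega

/-- permutation from an injective function -/
noncomputable def permOf (f : Fin 3 → Fin 3) (h : Injective f) : Equiv.Perm (Fin 3) :=
  Equiv.ofBijective f (Finite.injective_iff_bijective.1 h)

/-- A rainbow colouring gives a colouring of the digraph that is not synchronizing. -/
theorem not_totallySync_of_rainbow (hn : IsNext nm t nxt) (hq1 : 1 < q) (hq : 4 * t ≤ q) (L : ℕ)
    {c : α → Fin 3} (hc : Rainbow nm t c) :
    ¬ TotallySync (headS (xF t q L) (yF t nxt q L)) := by
  classical
  let χ : Fin q → Equiv.Perm (Fin 3) := fun i =>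
    if h : i.val < t then permOf (fun l => c (nm (3 * i.val + l))) (fun l l' h' => hc i.val h l l' h')
    else if i.val < t + 3 * t then Equiv.swap 0 (c (nm (i.val - t))) else 1
  have h1 : ∀ j < 3 * t, χ (dec q j).1 (dec q j).2 = c (nm j) := by
    intro j hj
    have h2 : ((dec q j).1 : ℕ) = j / 3 := dec_fst (by omega)
    simp only [χ]
    rw [dif_pos (by omega)]
    simp only [permOf, Equiv.ofBijective_apply]
    rw [h2, dec_snd]
    congr 2
    omega
  have h3 : ∀ j < 3 * t, χ (dec q (3 * (t + j))).1 (dec q (3 * (t + j))).2 = c (nm j) := by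
    intro j hj
    have h2 : ((dec q (3 * (t + j))).1 : ℕ) = t + j := by
      rw [dec_fst (by omega)]; omega
    have h4 : (dec q (3 * (t + j))).2 = 0 := by
      apply Fin.ext
      rw [dec_snd]
      simp
    simp only [χ]
    rw [dif_neg (by omega), if_pos (by omega), h4, h2]
    simp
  refine not_totallySync _ _ hq1 χ fun lam => ?_
  simp only [xF, yF, xN, yN]
  by_cases h5 : 3 * t ≤ lam.val / 3
  · rw [if_pos h5, if_pos h5]
  · rw [if_neg h5, if_neg h5]
    by_cases h6 : lam.val % 3 = 0
    · rw [if_pos h6, if_pos h6, h1 _ (by omega), h3 _ (by omega)]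
    · rw [if_neg h6, if_neg h6, h3 _ (by omega)]
      cases hx : nxt (lam.val / 3) with
      | none => simp only [Option.getD_none]; rw [h3 _ (by omega)]
      | some j' =>
        obtain ⟨h7, h8, h9⟩ := hn.isome _ (by omega) _ hx
        simp only [Option.getD_some]
        rw [h1 _ h8, h9]

/-- A colouring of the digraph that is not synchronizing gives a rainbow colouring. -/
theorem rainbow_of_not_totallySync (hn : IsNext nm t nxt) (hqp : q.Prime) (hq : 4 * t ≤ q)
    (L : ℕ) (hL : 3 * q + 18 * t ≤ L) (h : ¬ TotallySync (headS (xF t q L) (yF t nxt q L))) :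
    ∃ c : α → Fin 3, Rainbow nm t c := by
  classical
  obtain ⟨P, hP, hbal⟩ := exists_positions hqp (card_extra_lt L hL) h
  -- occurrence `j` has colour `b`
  let O : Fin 3 → ℕ → Prop := fun b j => P b (dec q j).1 = (dec q j).2
  -- the star of the link `j`
  have hstar : ∀ j (hj : j < 3 * t), ((dec q (3 * (t + j))).1 : ℕ) = t + j := by
    intro j hj
    rw [dec_fst (by omega)]; omega
  have hlink : ∀ b, ∀ j < 3 * t, ind (O b j) = ind (O b (3 * (t + j))) ∧
      ∀ j', nxt j = some j' → ind (O b (3 * (t + j))) = ind (O b j') := by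
    intro b j hj
    have h1 := hbal b (dec q (3 * (t + j))).1
    have hne1 : ∀ j' < 3 * t, (dec q j').1 ≠ (dec q (3 * (t + j))).1 := by
      intro j' hj' h'
      have := congrArg Fin.val h'
      rw [hstar j hj, dec_fst (by omega)] at this
      omega
    have hne2 : ∀ j' < 3 * t, j' ≠ j → (dec q (3 * (t + j'))).1 ≠ (dec q (3 * (t + j))).1 := by
      intro j' hj' hjj h'
      have := congrArg Fin.val h'
      rw [hstar j hj, hstar j' hj'] at this
      omega
    have hne0 : 0 < t → (dec q 0).1 ≠ (dec q (3 * (t + j))).1 := fun h0 => hne1 0 (by omega)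
    have hz : ∀ lam : Fin L, lam.val / 3 ≠ j →
        (ind (P b (xF t q L lam).1 = (xF t q L lam).2) -
          ind (P b (yF t nxt q L lam).1 = (yF t nxt q L lam).2)) *
          (ind ((yF t nxt q L lam).1 = (dec q (3 * (t + j))).1) -
            ind ((xF t q L lam).1 = (dec q (3 * (t + j))).1)) = 0 := by
      intro lam hlam
      by_cases h5 : 3 * t ≤ lam.val / 3
      · have : xF t q L lam = yF t nxt q L lam := by
          simp only [xF, yF, xN, yN]
          rw [if_pos h5, if_pos h5]
        rw [this]; simp
      · have hx : (xF t q L lam).1 ≠ (dec q (3 * (t + j))).1 := by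
          simp only [xF, xN]
          rw [if_neg h5]
          split_ifs
          · exact hne1 _ (by omega)
          · exact hne2 _ (by omega) hlam
        have hy : (yF t nxt q L lam).1 ≠ (dec q (3 * (t + j))).1 := by
          simp only [yF, yN]
          rw [if_neg h5]
          split_ifs
          · exact hne2 _ (by omega) hlam
          · cases hx : nxt (lam.val / 3) with
            | none => simp only [Option.getD_none]; exact hne2 _ (by omega) hlam
            | some j' =>
              simp only [Option.getD_some]
              exact hne1 _ (hn.isome _ (by omega) _ hx).2.1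
        rw [ind_not hx, ind_not hy]; simp
    have hL0 : 3 * j + 2 < L := by omega
    let f : Fin L → ℤ := fun lam => (ind (P b (xF t q L lam).1 = (xF t q L lam).2) -
          ind (P b (yF t nxt q L lam).1 = (yF t nxt q L lam).2)) *
          (ind ((yF t nxt q L lam).1 = (dec q (3 * (t + j))).1) -
            ind ((xF t q L lam).1 = (dec q (3 * (t + j))).1))
    have hsum : ∑ lam, f lam = f ⟨3 * j, by omega⟩ + f ⟨3 * j + 1, by omega⟩ +
        f ⟨3 * j + 2, by omega⟩ := by
      have h2 : ∑ lam, f lam = ∑ lam ∈ ({⟨3 * j, by omega⟩, ⟨3 * j + 1, by omega⟩,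
          ⟨3 * j + 2, by omega⟩} : Finset (Fin L)), f lam := by
        symm
        apply Finset.sum_subset (Finset.subset_univ _)
        intro lam _ hlam
        apply hz
        intro h'
        apply hlam
        simp only [mem_insert, mem_singleton, Fin.ext_iff]
        omega
      rw [h2, Finset.sum_insert (by simp), Finset.sum_insert (by simp), Finset.sum_singleton]
      ring
    have hf0 : f ⟨3 * j, by omega⟩ = ind (O b j) - ind (O b (3 * (t + j))) := by
      have e1 : xF t q L ⟨3 * j, by omega⟩ = dec q j := by
        simp only [xF, xN]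
        rw [if_neg (by omega), if_pos (by omega)]
        congr 1; omega
      have e2 : yF t nxt q L ⟨3 * j, by omega⟩ = dec q (3 * (t + j)) := by
        simp only [yF, yN]
        rw [if_neg (by omega), if_pos (by omega)]
        congr 3; omega
      simp only [f, e1, e2, O]
      rw [ind_not (hne1 j hj)]
      simp
    have hf1 : ∀ (r : ℕ) (hr : 3 * j + r < L), r = 1 ∨ r = 2 → f ⟨3 * j + r, hr⟩ =
        match nxt j with
        | none => 0
        | some j' => ind (O b j') - ind (O b (3 * (t + j))) := by
      intro r hr hr'
      have e1 : xF t q L ⟨3 * j + r, hr⟩ = dec q (3 * (t + j)) := by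
        simp only [xF, xN]
        rw [if_neg (by omega), if_neg (by omega)]
        congr 3; omega
      have e2 : yF t nxt q L ⟨3 * j + r, hr⟩ = dec q ((nxt j).getD (3 * (t + j))) := by
        simp only [yF, yN]
        rw [if_neg (by omega), if_neg (by omega)]
        have : (3 * j + r) / 3 = j := by omega
        rw [this]
      cases hx : nxt j with
      | none =>
        rw [hx] at e2
        simp only [Option.getD_none] at e2
        simp only [f, e1, e2]
        simp
      | some j' =>
        rw [hx] at e2
        simp only [Option.getD_some] at e2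
        simp only [f, e1, e2, O]
        rw [ind_not (hne1 j' (hn.isome _ hj _ hx).2.1)]
        simp
    have hind : ∀ p : Prop, ind p = 0 ∨ ind p = 1 := by
      intro p
      by_cases hp : p
      · exact Or.inr (ind_of hp)
      · exact Or.inl (ind_not hp)
    change ∑ lam, f lam = 0 at h1
    rw [hsum, hf0, hf1 1 (by omega) (Or.inl rfl), hf1 2 (by omega) (Or.inr rfl)] at h1
    cases hx : nxt j with
    | none =>
      rw [hx] at h1
      simp only at h1
      exact ⟨by linarith, by simp⟩
    | some j' =>
      rw [hx] at h1
      simp only at h1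
      rcases hind (O b j) with h2 | h2 <;> rcases hind (O b (3 * (t + j))) with h3 | h3 <;>
        rcases hind (O b j') with h4 | h4 <;> rw [h2, h3, h4] at h1 <;> first
          | (exfalso; omega)
          | (refine ⟨by rw [h2, h3], fun j'' hj'' => ?_⟩; cases hj''; rw [h3, h4])
  have hO : ∀ b, ∀ j < 3 * t, ∀ j', nxt j = some j' → (O b j ↔ O b j') := by
    intro b j hj j' hx
    obtain ⟨h1, h2⟩ := hlink b j hj
    have h3 := h1.trans (h2 j' hx)
    constructor
    · intro h4
      by_contra h5
      rw [ind_of h4, ind_not h5] at h3; omega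
    · intro h4
      by_contra h5
      rw [ind_not h5, ind_of h4] at h3; omega
  -- the same name has the same colour
  have hsame : ∀ b, ∀ d, ∀ j j', j < j' → j' < 3 * t → nm j' = nm j → j' - j ≤ d →
      (O b j ↔ O b j') := by
    intro b d
    induction d with
    | zero => intro j j' h1 _ _ h2; omega
    | succ d ih =>
      intro j j' h1 h2 h3 h4
      obtain ⟨j1, hj1, hle⟩ := hn.next j j' h1 h2 h3
      obtain ⟨h5, h6, h7⟩ := hn.isome j (by omega) j1 hj1
      rcases hle.lt_or_eq with h8 | h8
      · exact (hO b j (by omega) j1 hj1).trans (ih j1 j' h8 h2 (h3.trans h7.symm) (by omega))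
      · subst h8; exact hO b j (by omega) _ hj1
  have hsame' : ∀ b j j', j < 3 * t → j' < 3 * t → nm j' = nm j → (O b j ↔ O b j') := by
    intro b j j' h1 h2 h3
    rcases lt_trichotomy j j' with h | h | h
    · exact hsame b _ j j' h h2 h3 le_rfl
    · subst h; rfl
    · exact (hsame b _ j' j h h1 h3.symm le_rfl).symm
  have hex : ∀ j, ∃ b, O b j := by
    intro j
    exact (Finite.injective_iff_bijective.1 (hP (dec q j).1)).2 (dec q j).2
  have huniq : ∀ j b b', O b j → O b' j → b = b' := by
    intro j b b' h1 h2
    exact hP (dec q j).1 (h1.trans h2.symm)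
  let c : α → Fin 3 := fun a =>
    if h : ∃ j, j < 3 * t ∧ nm j = a then (hex h.choose).choose else 0
  have hc : ∀ j < 3 * t, O (c (nm j)) j := by
    intro j hj
    have h : ∃ j', j' < 3 * t ∧ nm j' = nm j := ⟨j, hj, rfl⟩
    simp only [c]
    rw [dif_pos h]
    exact (hsame' _ _ _ hj h.choose_spec.1 h.choose_spec.2).2 (hex h.choose).choose_spec
  refine ⟨c, fun i hi l l' hll => ?_⟩
  have h1 := hc (3 * i + l) (by omega)
  have h2 := hc (3 * i + l') (by omega)
  rw [hll] at h1
  simp only [O] at h1 h2
  have h3 : (dec q (3 * i + l)).1 = (dec q (3 * i + l')).1 := by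
    apply Fin.ext
    rw [dec_fst (by omega), dec_fst (by omega)]
    omega
  rw [h3, h2] at h1
  have h4 := congrArg Fin.val h1
  rw [dec_snd, dec_snd] at h4
  apply Fin.ext
  omega

end Pool.Agent.Helper87.TotSync
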