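import Pool.Agent.Helper87.TotSync.Links

/-!
# From satisfiability to rainbow triples
-/

open Finset Function

namespace Pool.Agent.Helper87.TotSync

variable {ν : Type*}

/-- names: the palette, the literals, and six names for every position of a clause -/
abbrev Name (ν : Type*) : Type _ := Fin 3 ⊕ ((ν × Bool) ⊕ (List (ν × Bool) × (ℕ × Fin 6)))

/-- palette -/
def pal (p : Fin 3) : Name ν := Sum.inl p

/-- the name of a literal -/
def lit (l : ν × Bool) : Name ν := Sum.inr (Sum.inl l)

/-- names of a clause -/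
def nod (C : List (ν × Bool)) (j : ℕ) (k : Fin 6) : Name ν := Sum.inr (Sum.inr (C, (j, k)))

/-- triples of names -/
abbrev Trip (ν : Type*) : Type _ := Name ν × (Name ν × Name ν)

/-- the triples of a literal of a clause -/
def litTrips (C : List (ν × Bool)) (j : ℕ) (l : ν × Bool) : List (Trip ν) :=
  [(lit (l.1, true), (lit (l.1, false), pal 2)),
   (nod C j 1, (nod C j 2, nod C (j + 1) 0)),
   (nod C j 0, (nod C j 1, nod C j 3)),
   (lit l, (nod C j 2, nod C j 4)),
   (nod C (j + 1) 0, (pal 2, nod C j 5))]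

/-- the triples of a clause -/
def clauseTrips (C : List (ν × Bool)) : List (Trip ν) :=
  (nod C 0 0, (pal 0, pal 2)) :: (nod C C.length 0, (pal 1, pal 2)) ::
    (List.range C.length).flatMap fun j =>
      match C[j]? with
      | none => []
      | some l => litTrips C j l

/-- the triples of a formula -/
def trips (φ : List (List (ν × Bool))) : List (Trip ν) :=
  (pal 0, (pal 1, pal 2)) :: φ.flatMap clauseTrips

/-- all three values are distinct -/
def Rb {β : Type*} (c : β → Fin 3) (t : β × (β × β)) : Prop :=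
  c t.1 ≠ c t.2.1 ∧ c t.1 ≠ c t.2.2 ∧ c t.2.1 ≠ c t.2.2

lemma mem_clauseTrips {C : List (ν × Bool)} {t : Trip ν} : t ∈ clauseTrips C ↔
    t = (nod C 0 0, (pal 0, pal 2)) ∨ t = (nod C C.length 0, (pal 1, pal 2)) ∨
      ∃ j l, C[j]? = some l ∧ t ∈ litTrips C j l := by
  simp only [clauseTrips, List.mem_cons, List.mem_flatMap, List.mem_range]
  refine or_congr Iff.rfl (or_congr Iff.rfl ?_)
  constructor
  · rintro ⟨j, hj, h⟩
    cases hx : C[j]? with
    | none => rw [hx] at h; simp at h
    | some l => rw [hx] at h; exact ⟨j, l, hx, h⟩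
  · rintro ⟨j, l, h1, h2⟩
    obtain ⟨hj, -⟩ := List.getElem?_eq_some_iff.1 h1
    refine ⟨j, hj, ?_⟩
    rw [h1]; exact h2

/-- the third colour -/
def third (a b : Fin 3) : Fin 3 := -(a + b)

lemma third_ne : ∀ a b : Fin 3, a ≠ b → a ≠ third a b ∧ b ≠ third a b := by decide

lemma eq_of_ne (t f b x : Fin 3) (h1 : t ≠ f) (h2 : t ≠ b) (h3 : f ≠ b) (h4 : x ≠ t)
    (h5 : x ≠ b) : x = f := by
  simp only [ne_eq, Fin.ext_iff] at *
  omega

lemma eq_of_ne' (t f b x y z : Fin 3) (h1 : t ≠ f) (h2 : t ≠ b) (h3 : f ≠ b) (h4 : f ≠ x)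
    (h5 : f ≠ y) (h6 : x ≠ y) (h7 : x ≠ z) (h8 : y ≠ z) : z = f := by
  simp only [ne_eq, Fin.ext_iff] at *
  omega

section colouring

variable (τ : ν → Bool)

open Classical in
/-- value of the disjunction of the first literals -/
noncomputable def oV (C : List (ν × Bool)) (j : ℕ) : Fin 3 :=
  if ∃ i < j, ∃ l, C[i]? = some l ∧ τ l.1 = l.2 then 0 else 1

/-- value of a literal -/
def lV (l : ν × Bool) : Fin 3 := if τ l.1 = l.2 then 0 else 1

/-- value of the literal of a clause -/
def cV (C : List (ν × Bool)) (j : ℕ) : Fin 3 :=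
  match C[j]? with
  | none => 0
  | some l => lV τ l

/-- the colouring of the names given by an assignment -/
noncomputable def colN : Name ν → Fin 3
  | .inl p => p
  | .inr (.inl l) => lV τ l
  | .inr (.inr (C, (j, k))) =>
    let o := oV τ C j
    let v := cV τ C j
    let a : Fin 3 := if o = 0 then 1 else if v = 0 then 2 else 0
    let b : Fin 3 := if o = 0 then 2 else if v = 0 then 1 else 2
    ![o, a, b, third o a, third v b, third (oV τ C (j + 1)) 2] k

lemma oV_succ {C : List (ν × Bool)} {j : ℕ} {l : ν × Bool} (h : C[j]? = some l) :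
    oV τ C (j + 1) = if oV τ C j = 0 then 0 else if lV τ l = 0 then 0 else 1 := by
  classical
  by_cases h1 : ∃ i < j, ∃ l, C[i]? = some l ∧ τ l.1 = l.2
  · have h2 : ∃ i < j + 1, ∃ l, C[i]? = some l ∧ τ l.1 = l.2 := by
      obtain ⟨i, hi, h⟩ := h1
      exact ⟨i, by omega, h⟩
    have e1 : oV τ C j = 0 := if_pos h1
    have e2 : oV τ C (j + 1) = 0 := if_pos h2
    rw [e1, e2]; simp
  · have e1 : oV τ C j = 1 := if_neg h1
    by_cases h3 : τ l.1 = l.2
    · have h2 : ∃ i < j + 1, ∃ l, C[i]? = some l ∧ τ l.1 = l.2 := ⟨j, by omega, l, h, h3⟩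
      have e2 : oV τ C (j + 1) = 0 := if_pos h2
      have e3 : lV τ l = 0 := if_pos h3
      rw [e1, e2, e3]; simp
    · have h2 : ¬ ∃ i < j + 1, ∃ l, C[i]? = some l ∧ τ l.1 = l.2 := by
        rintro ⟨i, hi, l', h4, h5⟩
        rcases (Nat.lt_succ_iff_lt_or_eq.1 hi) with h6 | h6
        · exact h1 ⟨i, h6, l', h4, h5⟩
        · subst h6
          rw [h] at h4
          cases h4
          exact h3 h5
      have e2 : oV τ C (j + 1) = 1 := if_neg h2
      have e3 : lV τ l = 1 := if_neg h3
      rw [e1, e2, e3]; simp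

lemma oV_cases (C : List (ν × Bool)) (j : ℕ) : oV τ C j = 0 ∨ oV τ C j = 1 := by
  classical
  unfold oV
  split_ifs <;> simp

lemma lV_cases (l : ν × Bool) : lV τ l = 0 ∨ lV τ l = 1 := by
  unfold lV
  split_ifs <;> simp

lemma rb_colN {φ : List (List (ν × Bool))} (hφ : ∀ C ∈ φ, ∃ l ∈ C, τ l.1 = l.2) :
    ∀ t ∈ trips φ, Rb (colN τ) t := by
  intro t ht
  simp only [trips, List.mem_cons, List.mem_flatMap] at ht
  rcases ht with rfl | ⟨C, hC, ht⟩
  · simp [Rb, colN, pal]
  rw [mem_clauseTrips] at ht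
  rcases ht with rfl | rfl | ⟨j, l, hl, ht⟩
  · have : oV τ C 0 = 1 := by
      unfold oV
      rw [if_neg]
      rintro ⟨i, hi, -⟩
      omega
    simp [Rb, colN, pal, nod, this]
  · have : oV τ C C.length = 0 := by
      unfold oV
      rw [if_pos]
      obtain ⟨l, hl, h⟩ := hφ C hC
      obtain ⟨i, hi, rfl⟩ := List.getElem_of_mem hl
      exact ⟨i, hi, _, List.getElem?_eq_getElem hi, h⟩
    simp [Rb, colN, pal, nod, this]
  · have hv : cV τ C j = lV τ l := by simp [cV, hl]
    have hs := oV_succ τ hl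
    simp only [litTrips, List.mem_cons, List.not_mem_nil, or_false] at ht
    rcases ht with rfl | rfl | rfl | rfl | rfl
    · rcases hb : τ l.1 <;> simp [Rb, colN, lit, pal, lV, hb]
    · rcases oV_cases τ C j with h1 | h1 <;> rcases lV_cases τ l with h2 | h2 <;>
        simp [Rb, colN, nod, hv, hs, h1, h2]
    · rcases oV_cases τ C j with h1 | h1 <;> rcases lV_cases τ l with h2 | h2 <;>
        simp [Rb, colN, nod, hv, h1, h2, third] <;> decide
    · rcases oV_cases τ C j with h1 | h1 <;> rcases lV_cases τ l with h2 | h2 <;>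
        simp [Rb, colN, nod, lit, hv, h1, h2, third] <;> decide
    · rcases oV_cases τ C (j + 1) with h1 | h1 <;>
        simp [Rb, colN, nod, pal, h1, third] <;> decide

end colouring

lemma sat_of_rb {φ : List (List (ν × Bool))} {c : Name ν → Fin 3} (hc : ∀ t ∈ trips φ, Rb c t) :
    ∃ τ : ν → Bool, ∀ C ∈ φ, ∃ l ∈ C, τ l.1 = l.2 := by
  refine ⟨fun v => decide (c (lit (v, true)) = c (pal 0)), fun C hC => ?_⟩
  by_contra hno
  push Not at hno
  have hp : Rb c (pal 0, (pal 1, pal 2)) := hc _ (by simp [trips])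
  obtain ⟨p1, p2, p3⟩ := hp
  simp only at p1 p2 p3
  have hmem : ∀ t ∈ clauseTrips C, Rb c t := fun t ht => hc t (by
    simp only [trips, List.mem_cons, List.mem_flatMap]
    exact Or.inr ⟨C, hC, ht⟩)
  have hO0 : c (nod C 0 0) = c (pal 1) := by
    obtain ⟨h1, h2, -⟩ := hmem _ (mem_clauseTrips.2 (Or.inl rfl))
    exact eq_of_ne _ _ _ _ p1 p2 p3 h1 h2
  have hO : ∀ j ≤ C.length, c (nod C j 0) = c (pal 1) := by
    intro j
    induction j with
    | zero => intro _; exact hO0
    | succ j ih =>
      intro hj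
      have h0 := ih (by omega)
      obtain ⟨l, hl⟩ : ∃ l, C[j]? = some l := ⟨C[j], List.getElem?_eq_getElem (by omega)⟩
      have hin : ∀ t ∈ litTrips C j l, Rb c t := fun t ht =>
        hmem t (mem_clauseTrips.2 (Or.inr (Or.inr ⟨j, l, hl, ht⟩)))
      have hlC : l ∈ C := List.mem_of_getElem? hl
      obtain ⟨a1, a2, a3⟩ := hin (lit (l.1, true), (lit (l.1, false), pal 2)) (by simp [litTrips])
      obtain ⟨b1, b2, b3⟩ := hin (nod C j 1, (nod C j 2, nod C (j + 1) 0)) (by simp [litTrips])
      obtain ⟨c1, -, -⟩ := hin (nod C j 0, (nod C j 1, nod C j 3)) (by simp [litTrips])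
      obtain ⟨d1, -, -⟩ := hin (lit l, (nod C j 2, nod C j 4)) (by simp [litTrips])
      obtain ⟨e1, -, -⟩ := hin (nod C (j + 1) 0, (pal 2, nod C j 5)) (by simp [litTrips])
      simp only at a1 a2 a3 b1 b2 b3 c1 d1 e1
      have hlit : c (lit l) = c (pal 1) := by
        have h1 := hno l hlC
        rcases l with ⟨v, b⟩
        cases b
        · simp only [ne_eq, Bool.not_eq_false, decide_eq_true_eq] at h1
          rw [h1] at a1
          exact eq_of_ne _ _ _ _ p1 p2 p3 a1.symm a3
        · simp only [ne_eq, Bool.not_eq_true, decide_eq_false_iff_not] at h1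
          exact eq_of_ne _ _ _ _ p1 p2 p3 h1 a2
      rw [h0] at c1
      rw [hlit] at d1
      exact eq_of_ne' _ _ _ _ _ _ p1 p2 p3 c1 d1 b1 b2 b3
  have h1 := hO C.length le_rfl
  obtain ⟨h2, -, -⟩ := hmem _ (mem_clauseTrips.2 (Or.inr (Or.inl rfl)))
  exact h2 h1

/-- Satisfiability and rainbow colourings. -/
theorem rb_iff_sat (φ : List (List (ν × Bool))) :
    (∃ c : Name ν → Fin 3, ∀ t ∈ trips φ, Rb c t) ↔
      ∃ τ : ν → Bool, ∀ C ∈ φ, ∃ l ∈ C, τ l.1 = l.2 :=
  ⟨fun ⟨_, hc⟩ => sat_of_rb hc, fun ⟨τ, hτ⟩ => ⟨colN τ, rb_colN τ hτ⟩⟩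

/-! ### Occurrences -/

variable {β : Type*}

/-- the occurrences of the names in a list of triples -/
def occs (T : List (β × (β × β))) : List β := T.flatMap fun t => [t.1, t.2.1, t.2.2]

lemma length_occs (T : List (β × (β × β))) : (occs T).length = 3 * T.length := by
  induction T with
  | nil => rfl
  | cons t T ih =>
    have : occs (t :: T) = [t.1, t.2.1, t.2.2] ++ occs T := by simp [occs]
    rw [this, List.length_append, ih]
    simp; omega

lemma getElem?_occs : ∀ (T : List (β × (β × β))) (i : ℕ) (t : β × (β × β)), T[i]? = some t →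
    (occs T)[3 * i]? = some t.1 ∧ (occs T)[3 * i + 1]? = some t.2.1 ∧
      (occs T)[3 * i + 2]? = some t.2.2
  | [], i, t, h => by simp at h
  | s :: T, 0, t, h => by
    simp only [List.getElem?_cons_zero, Option.some.injEq] at h
    subst h
    simp [occs]
  | s :: T, i + 1, t, h => by
    simp only [List.getElem?_cons_succ] at h
    have := getElem?_occs T i t h
    have h1 : occs (s :: T) = [s.1, s.2.1, s.2.2] ++ occs T := by simp [occs]
    have h2 : ∀ m, (occs (s :: T))[m + 3]? = (occs T)[m]? := by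
      intro m
      rw [h1, List.getElem?_append_right (by simp)]
      simp
    rw [show 3 * (i + 1) = 3 * i + 3 by ring, show 3 * i + 3 + 1 = (3 * i + 1) + 3 by ring,
      show 3 * i + 3 + 2 = (3 * i + 2) + 3 by ring, h2, h2, h2]
    exact this

/-- Rainbow colourings of a list of triples. -/
theorem rainbow_iff (T : List (β × (β × β))) [Inhabited β] :
    (∃ c : Option β → Fin 3, Rainbow (fun j => (occs T)[j]?) T.length c) ↔
      ∃ c : β → Fin 3, ∀ t ∈ T, Rb c t := by
  constructor
  · rintro ⟨c, hc⟩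
    refine ⟨fun a => c (some a), fun t ht => ?_⟩
    obtain ⟨i, hi, rfl⟩ := List.getElem_of_mem ht
    obtain ⟨h0, h1, h2⟩ := getElem?_occs T i _ (List.getElem?_eq_getElem hi)
    have := hc i hi
    refine ⟨fun h => ?_, fun h => ?_, fun h => ?_⟩
    · have h3 := this 0 1 (by simpa [h0, h1] using h)
      simp at h3
    · have h3 := this 0 2 (by simpa [h0, h2] using h)
      simp at h3
    · have h3 := this 1 2 (by simpa [h1, h2] using h)
      simp at h3
  · rintro ⟨c, hc⟩
    refine ⟨fun o => c (o.getD default), fun i hi l l' h => ?_⟩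
    obtain ⟨h0, h1, h2⟩ := getElem?_occs T i _ (List.getElem?_eq_getElem hi)
    obtain ⟨e1, e2, e3⟩ := hc T[i] (List.getElem_mem hi)
    fin_cases l <;> fin_cases l' <;> simp [h0, h1, h2] at h <;> first
      | rfl
      | exact absurd h e1
      | exact absurd h e2
      | exact absurd h e3
      | exact absurd h.symm e1
      | exact absurd h.symm e2
      | exact absurd h.symm e3

/-- the next occurrence -/
def nxtL [DecidableEq β] (l : List β) (j : ℕ) : Option ℕ :=
  ((List.range l.length).filter fun j' => decide (j < j') && decide (l[j']? = l[j]?)).head?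

lemma isNext_nxtL [DecidableEq β] (l : List β) (t : ℕ) (h : l.length = 3 * t) :
    IsNext (fun j => l[j]?) t (nxtL l) where
  isome := by
    intro j _ j' hj'
    have h1 := List.mem_of_mem_head? hj'
    simp only [List.mem_filter, List.mem_range, Bool.and_eq_true, decide_eq_true_eq] at h1
    exact ⟨h1.2.1, h ▸ h1.1, h1.2.2⟩
  next := by
    intro j j'' h1 h2 h3
    have hmem : j'' ∈ (List.range l.length).filter
        fun j' => decide (j < j') && decide (l[j']? = l[j]?) := by
      simp only [List.mem_filter, List.mem_range, Bool.and_eq_true, decide_eq_true_eq]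
      exact ⟨h ▸ h2, h1, h3⟩
    have hsort : ((List.range l.length).filter
        fun j' => decide (j < j') && decide (l[j']? = l[j]?)).Pairwise (· < ·) :=
      List.Pairwise.filter _ List.pairwise_lt_range
    unfold nxtL
    cases hx : (List.range l.length).filter
        fun j' => decide (j < j') && decide (l[j']? = l[j]?) with
    | nil => rw [hx] at hmem; simp at hmem
    | cons a r =>
      rw [hx] at hmem hsort
      refine ⟨a, by simp, ?_⟩
      rcases List.mem_cons.1 hmem with h4 | h4
      · exact h4.symm.le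
      · exact ((List.pairwise_cons.1 hsort).1 _ h4).le

end Pool.Agent.Helper87.TotSync
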