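import Mathlib

/-!
# Automata, colourings, and the rank of an automaton (Friedman's weights)
-/

open Finset

namespace Pool.Agent.Helper87.TotSync

variable {V A : Type*}

/-- The extended transition function of an automaton. -/
def run (δ : V → A → V) (v : V) (w : List A) : V := w.foldl δ v

/-- An automaton is synchronizing if some word sends all states to the same state. -/
def IsSync (δ : V → A → V) : Prop := ∃ (w : List A) (q : V), ∀ v, run δ v w = q

/-- `head v j` is the head of the `j`-th edge leaving `v`. A colouring chooses at every vertex a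
bijection between letters and outgoing edges. -/
def TotallySync (head : V → A → V) : Prop :=
  ∀ σ : V → Equiv.Perm A, IsSync fun v a => head v (σ v a)

@[simp] lemma run_nil (δ : V → A → V) (v : V) : run δ v [] = v := rfl

@[simp] lemma run_cons (δ : V → A → V) (v : V) (a : A) (w : List A) :
    run δ v (a :: w) = run δ (δ v a) w := rfl

lemma run_append (δ : V → A → V) (v : V) (w w' : List A) :
    run δ v (w ++ w') = run δ (run δ v w) w' := by
  simp [run, List.foldl_append]

section weights

variable [Fintype V] [DecidableEq V] [Fintype A] (δ : V → A → V) (ω : V → ℕ)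

/-- The weight of the class of `s` under the word `w`. -/
def cw (w : List A) (s : V) : ℕ := ∑ v, if run δ v w = s then ω v else 0

/-- The rank of a word. -/
def rk (w : List A) : ℕ := (univ.image fun v => run δ v w).card

/-- The weights are stationary. -/
def Stationary : Prop :=
  ∀ u, ∑ v, ∑ a, (if δ v a = u then ω v else 0) = Fintype.card A * ω u

variable {δ ω}

lemma sum_cw_cons (h : Stationary δ ω) (w : List A) (s : V) :
    ∑ a, cw δ ω (a :: w) s = Fintype.card A * cw δ ω w s := by
  unfold cw
  simp only [run_cons]
  calc ∑ a, ∑ v, (if run δ (δ v a) w = s then ω v else 0)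
      = ∑ u, ∑ v, ∑ a, (if run δ u w = s then (if δ v a = u then ω v else 0) else 0) := by
        have h1 : ∀ (a : A) (v : V), (if run δ (δ v a) w = s then ω v else 0) =
            ∑ u, (if run δ u w = s then (if δ v a = u then ω v else 0) else 0) := by
          intro a v
          rw [Finset.sum_eq_single (δ v a)]
          · simp
          · intro b _ hb
            rw [if_neg (c := δ v a = b) (fun h => hb h.symm)]; simp
          · simp
        simp only [h1]
        rw [Finset.sum_comm]
        rw [Finset.sum_congr rfl (fun v _ => Finset.sum_comm)]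
        rw [Finset.sum_comm]
    _ = ∑ u, (if run δ u w = s then Fintype.card A * ω u else 0) := by
        refine Finset.sum_congr rfl fun u _ => ?_
        split_ifs
        · exact h u
        · simp
    _ = _ := by
        rw [Finset.mul_sum]
        refine Finset.sum_congr rfl fun u _ => ?_
        split_ifs <;> simp

lemma cw_le (w : List A) (s : V) : cw δ ω w s ≤ ∑ v, ω v := by
  refine Finset.sum_le_sum fun v _ => ?_
  split_ifs <;> simp

lemma exists_max [Nonempty V] : ∃ w s, ∀ w' s', cw δ ω w' s' ≤ cw δ ω w s := by
  classical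
  obtain ⟨v0⟩ := ‹Nonempty V›
  let P : ℕ → Prop := fun m => ∃ w s, cw δ ω w s = m
  have hP : ∃ m, P m := ⟨_, [], v0, rfl⟩
  have hb : ∀ m, P m → m ≤ ∑ v, ω v := by rintro m ⟨w, s, rfl⟩; exact cw_le w s
  obtain ⟨m0, hm0⟩ := hP
  have h1 := Nat.findGreatest_spec (P := P) (hb m0 hm0) hm0
  obtain ⟨w, s, hws⟩ := h1
  refine ⟨w, s, fun w' s' => ?_⟩
  rw [hws]
  exact Nat.le_findGreatest (cw_le w' s') ⟨w', s', rfl⟩

lemma cw_append_of_max (h : Stationary δ ω) {M : ℕ} (hM : ∀ w s, cw δ ω w s ≤ M)
    (w : List A) (s : V) (hw : cw δ ω w s = M) : ∀ y : List A, cw δ ω (y ++ w) s = M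
  | [] => hw
  | a :: y => by
    have ih := cw_append_of_max h hM w s hw y
    have h1 := sum_cw_cons h (y ++ w) s
    rw [ih] at h1
    have h2 : ∑ a : A, cw δ ω (a :: (y ++ w)) s = ∑ _a : A, M := by
      rw [h1]; simp
    have h3 := (Finset.sum_eq_sum_iff_of_le (fun a _ => hM (a :: (y ++ w)) s)).1 h2
    exact h3 a (mem_univ a)

lemma rk_append_le (w w' : List A) : rk δ (w ++ w') ≤ rk δ w := by
  unfold rk
  have : (univ.image fun v => run δ v (w ++ w')) =
      (univ.image fun v => run δ v w).image fun v => run δ v w' := by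
    ext s; simp [run_append]
  rw [this]; exact Finset.card_image_le

lemma rk_append_le' (w w' : List A) : rk δ (w ++ w') ≤ rk δ w' := by
  unfold rk
  refine Finset.card_le_card fun s hs => ?_
  simp only [mem_image, mem_univ, true_and] at hs ⊢
  obtain ⟨v, rfl⟩ := hs
  exact ⟨run δ v w, by rw [run_append]⟩

/-- Friedman's theorem: the classes of a suitable word of minimal rank, and of all words that end
with it, have the same weight. -/
theorem exists_uniform [Nonempty V] (h : Stationary δ ω) (hpos : ∀ v, 0 < ω v)
    (hconn : ∀ s t, ∃ w, run δ s w = t) :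
    ∃ (x : List A) (M : ℕ), (∀ w, rk δ x ≤ rk δ w) ∧ ∀ v y, cw δ ω (y ++ x) (run δ v x) = M := by
  classical
  obtain ⟨w0, s0, hmax⟩ := exists_max (δ := δ) (ω := ω)
  set M := cw δ ω w0 s0 with hM
  obtain ⟨x1, hx1⟩ : ∃ x, ∀ w, rk δ x ≤ rk δ w := by
    let P : ℕ → Prop := fun m => ∃ w, rk δ w = m
    have hP : ∃ m, P m := ⟨_, [], rfl⟩
    obtain ⟨x, hx⟩ := Nat.find_spec hP
    exact ⟨x, fun w => hx ▸ Nat.find_min' hP ⟨w, rfl⟩⟩
  set x := x1 ++ w0 with hx
  have hxmin : ∀ w, rk δ x ≤ rk δ w := fun w => (rk_append_le x1 w0).trans (hx1 w)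
  have hxM : cw δ ω x s0 = M := cw_append_of_max h hmax w0 s0 rfl x1
  have hMpos : 0 < M := by
    obtain ⟨v0⟩ := ‹Nonempty V›
    refine lt_of_lt_of_le ?_ (hmax [] v0)
    unfold cw
    rw [Finset.sum_eq_single v0]
    · simpa using hpos v0
    · intro b _ hb
      exact if_neg hb
    · simp
  obtain ⟨v1, hv1⟩ : ∃ v1, run δ v1 x = s0 := by
    by_contra hno
    push Not at hno
    have : cw δ ω x s0 = 0 := by
      unfold cw
      exact Finset.sum_eq_zero fun v _ => if_neg (hno v)
    omega
  refine ⟨x, M, hxmin, fun v0 y => ?_⟩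
  suffices hs : cw δ ω x (run δ v0 x) = M from cw_append_of_max h hmax x _ hs y
  obtain ⟨z, hz⟩ := hconn (run δ v0 x) v1
  have h1 : cw δ ω (x ++ z ++ x) s0 = M := by
    have := cw_append_of_max h hmax x s0 hxM (x ++ z)
    exact this
  -- the kernel of `x z x` is the kernel of `x`
  have hker : ∀ v, run δ v (x ++ z ++ x) = s0 ↔ run δ v x = run δ v0 x := by
    intro v
    have hinj : Set.InjOn (fun s => run δ s (z ++ x)) (univ.image fun v => run δ v x : Finset V) := by
      have hc : ((univ.image fun v => run δ v x).image fun s => run δ s (z ++ x)).card =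
          (univ.image fun v => run δ v x).card := by
        apply le_antisymm Finset.card_image_le
        have h2 := hxmin (x ++ (z ++ x))
        have h3 : (univ.image fun v => run δ v (x ++ (z ++ x))) =
          (univ.image fun v => run δ v x).image fun v => run δ v (z ++ x) := by
          ext s; simp [run_append]
        unfold rk at h2
        rw [h3] at h2
        exact h2
      exact Finset.card_image_iff.1 hc
    constructor
    · intro hv
      apply hinj (by simp) (by simp)
      show run δ (run δ v x) (z ++ x) = run δ (run δ v0 x) (z ++ x)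
      rw [← run_append, ← List.append_assoc, hv]
      rw [run_append δ _ z x, hz, hv1]
    · intro hv
      rw [run_append δ v (x ++ z) x, run_append δ v x z, hv, hz, hv1]
  rw [← h1]
  unfold cw
  refine Finset.sum_congr rfl fun v _ => ?_
  by_cases hv : run δ v x = run δ v0 x
  · rw [if_pos hv, if_pos ((hker v).2 hv)]
  · rw [if_neg hv, if_neg (fun h' => hv ((hker v).1 h'))]

end weights

end Pool.Agent.Helper87.TotSync
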