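import Pool.Agent.Helper87.TotSync.Stars

/-!
# A non-synchronizing colouring of the digraph of stars is consistent
-/

open Finset Function

namespace Pool.Agent.Helper87.TotSync

variable {q : ℕ} [NeZero q] {Λ : Type*} (x y : Λ → Fin q × Fin 3)

/-- the coloured digraph -/
def del (σ : Vtx q → Equiv.Perm (Fin 3 ⊕ Λ)) (v : Vtx q) (a : Fin 3 ⊕ Λ) : Vtx q :=
  headS x y v (σ v a)

lemma exists_letter (σ : Vtx q → Equiv.Perm (Fin 3 ⊕ Λ)) (v : Vtx q) (e : Fin 3 ⊕ Λ) :
    ∃ a, del x y σ v a = headS x y v e := ⟨(σ v).symm e, by simp [del]⟩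

lemma reach_trans {δ : Vtx q → Fin 3 ⊕ Λ → Vtx q} {s t u : Vtx q} (h1 : ∃ w, run δ s w = t)
    (h2 : ∃ w, run δ t w = u) : ∃ w, run δ s w = u := by
  obtain ⟨w1, rfl⟩ := h1
  obtain ⟨w2, rfl⟩ := h2
  exact ⟨w1 ++ w2, run_append _ _ _ _⟩

omit [NeZero q] in
lemma cyc_induction [NeZero q] {p : Fin q → Prop} (h0 : p 0) (hs : ∀ i, p i → p (i + 1)) :
    ∀ i, p i := by
  have h : ∀ (n : ℕ) (hn : n < q), p ⟨n, hn⟩ := by
    intro n
    induction n with
    | zero => intro hn; exact h0
    | succ n ih =>
      intro hn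
      have h1 := hs _ (ih (by omega))
      have h2 : (⟨n, by omega⟩ : Fin q) + 1 = ⟨n + 1, hn⟩ := by
        apply Fin.ext
        rw [Fin.val_add, Fin.val_one' q]
        simp only
        rw [Nat.mod_eq_of_lt (by omega : 1 < q), Nat.mod_eq_of_lt hn]
      rwa [h2] at h1
  rintro ⟨n, hn⟩
  exact h n hn

lemma connected (σ : Vtx q → Equiv.Perm (Fin 3 ⊕ Λ)) (s t : Vtx q) :
    ∃ w, run (del x y σ) s w = t := by
  have step : ∀ v e, ∃ w, run (del x y σ) v w = headS x y v e := fun v e => by
    obtain ⟨a, ha⟩ := exists_letter x y σ v e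
    exact ⟨[a], ha⟩
  have h1 : ∀ s : Vtx q, ∃ w, run (del x y σ) s w = (s.1, none) := by
    rintro ⟨i, _ | l⟩
    · exact ⟨[], rfl⟩
    · exact step (i, some l) (.inl 0)
  have h2 : ∀ (i : Fin q) (l : Fin 3), ∃ w, run (del x y σ) (i, none) w = (i + 1, some l) :=
    fun i l => step (i, none) (.inl l)
  have h3 : ∀ (i j : Fin q), ∃ w, run (del x y σ) (i, none) w = (i + j, none) := by
    intro i
    apply cyc_induction
    · exact ⟨[], by simp⟩
    · intro j ih
      refine reach_trans ih (reach_trans (h2 _ 0) ?_)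
      have := h1 (i + j + 1, some 0)
      simpa [add_assoc] using this
  have h4 : ∀ i j : Fin q, ∃ w, run (del x y σ) (i, none) w = (j, none) := by
    intro i j
    have := h3 i (j - i)
    simpa using this
  obtain ⟨j, _ | l⟩ := t
  · exact reach_trans (h1 s) (h4 _ _)
  · have := h2 (j - 1) l
    rw [sub_add_cancel] at this
    exact reach_trans (h1 s) (reach_trans (h4 _ _) this)

variable [Fintype Λ] [DecidableEq Λ]

/-- the additional edges -/
def extra : Finset (Vtx q × (Fin 3 ⊕ Λ)) := univ.filter fun p => headS x y p.1 p.2 ≠ (p.1.1, none)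

variable {x y}

lemma exists_free (hE : (extra x y).card < 3 + Fintype.card Λ)
    (σ : Vtx q → Equiv.Perm (Fin 3 ⊕ Λ)) : ∃ a, ∀ v, del x y σ v a = (v.1, none) := by
  have h1 : ((extra x y).image fun p => (σ p.1).symm p.2).card < Fintype.card (Fin 3 ⊕ Λ) := by
    refine lt_of_le_of_lt Finset.card_image_le ?_
    simpa using hE
  obtain ⟨a, ha⟩ := Finset.exists_mem_notMem_of_card_lt_card (t := univ)
    (s := (extra x y).image fun p => (σ p.1).symm p.2) (by rw [Finset.card_univ]; exact h1)
  refine ⟨a, fun v => ?_⟩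
  by_contra hv
  apply ha.2
  rw [mem_image]
  refine ⟨(v, σ v a), ?_, by simp⟩
  simp only [extra, mem_filter, mem_univ, true_and]
  exact hv

lemma stationary_del (σ : Vtx q → Equiv.Perm (Fin 3 ⊕ Λ)) :
    Stationary (del x y σ) (wtS Λ) := by
  intro u
  rw [← stationary_head x y u]
  refine Finset.sum_congr rfl fun v _ => ?_
  exact Equiv.sum_comp (σ v) (fun a => if headS x y v a = u then wtS Λ v else 0)

theorem injective_of_not_sync (hq : q.Prime) (hE : (extra x y).card < 3 + Fintype.card Λ)
    {σ : Vtx q → Equiv.Perm (Fin 3 ⊕ Λ)} (hσ : ¬ IsSync (del x y σ)) (w : List (Fin 3 ⊕ Λ)) :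
    Injective fun i => (run (del x y σ) (i, none) w).1 := by
  classical
  obtain ⟨a0, ha0⟩ := exists_free hE σ
  set δ := del x y σ with hδ
  haveI : Nonempty (Vtx q) := ⟨(0, none)⟩
  obtain ⟨z, M, hmin, hcw⟩ := exists_uniform (stationary_del (x := x) (y := y) σ) (by
    rintro ⟨i, _ | l⟩ <;> simp [wtS]) (connected x y σ)
  -- the number of roots in the classes of `z`
  let m : Vtx q → ℕ := fun s => (univ.filter fun i : Fin q => run δ (i, none) z = s).card
  have h1 : ∀ s, cw δ (wtS Λ) ([a0] ++ z) s = (3 + Fintype.card Λ + 3) * m s := by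
    intro s
    unfold cw
    simp only [List.singleton_append, run_cons, ha0]
    rw [Fintype.sum_prod_type]
    simp only [Fintype.sum_option, wtS]
    simp only [m, Finset.card_filter, Finset.mul_sum]
    refine Finset.sum_congr rfl fun i _ => ?_
    split_ifs <;> simp
  have hm : ∀ v, (3 + Fintype.card Λ + 3) * m (run δ v z) = M := fun v => by
    rw [← h1]; exact hcw v [a0]
  set I : Finset (Vtx q) := univ.image fun v => run δ v z with hI
  have hsum : ∑ s ∈ I, m s = q := by
    have := Finset.card_eq_sum_card_fiberwise (s := (univ : Finset (Fin q))) (t := I)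
      (f := fun i => run δ (i, none) z) (by
        intro i _
        simp only [hI, coe_image, coe_univ, Set.image_univ, Set.mem_range]
        exact ⟨_, rfl⟩)
    rw [Finset.card_univ, Fintype.card_fin] at this
    exact this.symm
  have hconst : ∀ s ∈ I, m s = m (run δ (0, none) z) := by
    intro s hs
    simp only [hI, mem_image, mem_univ, true_and] at hs
    obtain ⟨v, rfl⟩ := hs
    have := (hm v).trans (hm (0, none)).symm
    exact Nat.eq_of_mul_eq_mul_left (by omega) this
  rw [Finset.sum_congr rfl hconst, Finset.sum_const, smul_eq_mul] at hsum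
  have hcard : I.card = q := by
    rcases (Nat.dvd_prime hq).1 ⟨_, hsum.symm⟩ with h | h
    · exfalso
      apply hσ
      obtain ⟨s, hs⟩ := Finset.card_eq_one.1 h
      refine ⟨z, s, fun v => ?_⟩
      have : run δ v z ∈ I := by simp [hI]
      rw [hs, mem_singleton] at this
      exact this
    · exact h
  have h2 : q ≤ rk δ (a0 :: (w ++ [a0])) := hcard.symm.le.trans (hmin _)
  have h3 : rk δ (a0 :: (w ++ [a0])) ≤ (univ.image fun i : Fin q => (run δ (i, none) w).1).card := by
    unfold rk
    have : (univ.image fun v => run δ v (a0 :: (w ++ [a0]))) ⊆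
        (univ.image fun i : Fin q => (run δ (i, none) w).1).image fun j => ((j, none) : Vtx q) := by
      intro s hs
      simp only [mem_image, mem_univ, true_and, run_cons, run_append, run_nil, ha0] at hs ⊢
      obtain ⟨v, rfl⟩ := hs
      exact ⟨_, ⟨v.1, rfl⟩, rfl⟩
    exact (Finset.card_le_card this).trans Finset.card_image_le
  have h4 : (univ.image fun i : Fin q => (run δ (i, none) w).1).card = (univ : Finset (Fin q)).card := by
    apply le_antisymm Finset.card_image_le
    rw [Finset.card_univ, Fintype.card_fin]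
    exact h2.trans h3
  have h5 := Finset.card_image_iff.1 h4
  rwa [Finset.coe_univ, Set.injOn_univ] at h5

/-- indicator -/
noncomputable def ind (p : Prop) : ℤ := haveI := Classical.dec p; if p then 1 else 0

lemma ind_of {p : Prop} (h : p) : ind p = 1 := by unfold ind; rw [if_pos h]

lemma ind_not {p : Prop} (h : ¬ p) : ind p = 0 := by unfold ind; rw [if_neg h]

@[simp] lemma ind_true : ind True = 1 := ind_of trivial

@[simp] lemma ind_false : ind False = 0 := ind_not id

lemma sum_ind_eq {ι : Type*} [Fintype ι] (i0 : ι) : ∑ i : ι, ind (i = i0) = 1 := by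
  classical
  rw [Finset.sum_eq_single i0]
  · simp
  · intro b _ hb; exact ind_not hb
  · simp

/-- The digraph of stars has a consistent colouring if it has a colouring that is not
synchronizing. -/
theorem exists_positions (hq : q.Prime) (hE : (extra x y).card < 3 + Fintype.card Λ)
    (h : ¬ TotallySync (headS x y)) : ∃ P : Fin 3 → Fin q → Fin 3,
      (∀ i, Injective fun b => P b i) ∧ ∀ b i,
        ∑ lam, (ind (P b (x lam).1 = (x lam).2) - ind (P b (y lam).1 = (y lam).2)) *
          (ind ((y lam).1 = i) - ind ((x lam).1 = i)) = 0 := by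
  classical
  unfold TotallySync at h
  push Not at h
  obtain ⟨σ, hσ⟩ := h
  have hinj := injective_of_not_sync hq hE (σ := σ) hσ
  have hq1 : 1 < q := hq.one_lt
  -- a letter used for an arc at one root is used for an arc at all roots
  have hone : ∀ i : Fin q, i + 1 ≠ i := by
    intro i hi
    have h1 : (1 : Fin q) = 0 := by
      have := congrArg (fun z => z - i) hi
      simpa using this
    have h2 := congrArg Fin.val h1
    rw [Fin.val_one' q, Fin.val_zero, Nat.mod_eq_of_lt hq1] at h2
    omega
  have hstep : ∀ a i, (∃ l, σ (i, none) a = .inl l) → ∃ l, σ (i + 1, none) a = .inl l := by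
    rintro a i ⟨l, hl⟩
    rcases hs : σ (i + 1, none) a with l' | lam
    · exact ⟨l', rfl⟩
    · exfalso
      have h1 : (run (del x y σ) (i, none) [a]).1 = (run (del x y σ) (i + 1, none) [a]).1 := by
        simp only [run_cons, run_nil, del, hl, hs, headS]
      exact hone i (hinj [a] h1).symm
  have hall : ∀ a, (∃ l, σ ((0 : Fin q), none) a = .inl l) → ∀ i, ∃ l, σ (i, none) a = .inl l :=
    fun a h0 => cyc_induction h0 (hstep a)
  let A : Fin 3 → Fin 3 ⊕ Λ := fun b => (σ ((0 : Fin q), none)).symm (.inl b)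
  have hA : ∀ b i, ∃ l, σ (i, none) (A b) = .inl l := fun b i => hall (A b) ⟨b, by simp [A]⟩ i
  choose ψ hψ using hA
  have hψinj : ∀ i, Injective fun b => ψ b i := by
    intro i b c hbc
    simp only at hbc
    have h1 : σ (i, none) (A b) = σ (i, none) (A c) := by rw [hψ, hψ, hbc]
    have h2 := (σ (i, none)).injective h1
    have h3 := (σ ((0 : Fin q), none)).symm.injective h2
    simpa using h3
  refine ⟨fun b i => ψ b (i - 1), fun i => hψinj (i - 1), fun b i0 => ?_⟩
  set P : Fin q → Fin 3 := fun i => ψ b (i - 1) with hP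
  -- after the letter `A b` the roots are at the vertices `(i, P i)`
  have hrun : ∀ i a, run (del x y σ) (i - 1, none) [A b, a] =
      headS x y (i, some (P i)) (σ (i, some (P i)) a) := by
    intro i a
    simp only [run_cons, run_nil, del, hψ, headS, sub_add_cancel, hP]
  have hg : ∀ a, Injective fun i => (headS x y (i, some (P i)) (σ (i, some (P i)) a)).1 := by
    intro a i j hij
    simp only at hij
    rw [← hrun, ← hrun] at hij
    have := hinj [A b, a] hij
    simpa using this
  have hcount : ∀ a, ∑ i, ind ((headS x y (i, some (P i)) (σ (i, some (P i)) a)).1 = i0) = 1 := by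
    intro a
    have hb := (Finite.injective_iff_bijective.1 (hg a))
    obtain ⟨j, hj⟩ := hb.2 i0
    simp only at hj
    rw [Finset.sum_eq_single j]
    · exact ind_of hj
    · intro i _ hij
      have : ¬ ((headS x y (i, some (P i)) (σ (i, some (P i)) a)).1 = i0) := by
        intro h'
        exact hij (hg a (h'.trans hj.symm))
      exact ind_not this
    · simp
  have htotal : ∑ i, ∑ e, ind ((headS x y (i, some (P i)) e).1 = i0) = 3 + Fintype.card Λ := by
    have h1 : ∑ a : Fin 3 ⊕ Λ, ∑ i,
        ind ((headS x y (i, some (P i)) (σ (i, some (P i)) a)).1 = i0) = 3 + Fintype.card Λ := by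
      simp only [hcount]
      simp
    rw [Finset.sum_comm] at h1
    rw [← h1]
    refine Finset.sum_congr rfl fun i _ => ?_
    exact (Equiv.sum_comp (σ (i, some (P i)))
      (fun e => ind ((headS x y (i, some (P i)) e).1 = i0))).symm
  have hF : ∀ (lam : Λ) (u : Fin q × Fin 3), ind ((Equiv.swap (x lam) (y lam) u).1 = i0) =
      ind (u.1 = i0) + ind (u = x lam) * (ind ((y lam).1 = i0) - ind ((x lam).1 = i0)) +
        ind (u = y lam) * (ind ((x lam).1 = i0) - ind ((y lam).1 = i0)) := by
    intro lam u
    by_cases h1 : u = x lam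
    · subst h1
      by_cases h2 : x lam = y lam
      · rw [← h2]; simp
      · simp [h2]
    · by_cases h2 : u = y lam
      · subst h2
        simp [h1]
      · rw [Equiv.swap_apply_of_ne_of_ne h1 h2]
        simp [h1, h2]
  simp only [Fintype.sum_sum_type, headS] at htotal
  rw [Finset.sum_add_distrib] at htotal
  have h3 : ∑ i : Fin q, ∑ _l : Fin 3, ind (i = i0) = 3 := by
    rw [Finset.sum_comm]
    simp [sum_ind_eq]
  rw [h3, Finset.sum_comm] at htotal
  have h4 : ∀ lam : Λ, ∑ i, ind ((Equiv.swap (x lam) (y lam) (i, P i)).1 = i0) =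
      1 + (ind (P (x lam).1 = (x lam).2) - ind (P (y lam).1 = (y lam).2)) *
          (ind ((y lam).1 = i0) - ind ((x lam).1 = i0)) := by
    intro lam
    simp only [hF]
    rw [Finset.sum_add_distrib, Finset.sum_add_distrib, ← Finset.sum_mul, ← Finset.sum_mul]
    have h5 : ∀ u : Fin q × Fin 3, ∑ i, ind ((i, P i) = u) = ind (P u.1 = u.2) := by
      intro u
      rw [Finset.sum_eq_single u.1]
      · simp [Prod.ext_iff]
      · intro i _ hi
        simp [Prod.ext_iff, hi]
      · simp
    rw [h5, h5]
    have h6 : ∑ i : Fin q, ind (i = i0) = 1 := sum_ind_eq i0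
    rw [h6]
    ring
  simp only [h4] at htotal
  rw [Finset.sum_add_distrib] at htotal
  simp only [Finset.sum_const, Finset.card_univ, smul_eq_mul, mul_one, nsmul_eq_mul] at htotal
  linarith

end Pool.Agent.Helper87.TotSync
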