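import Pool.Agent.Helper87.TotSync.Rank

/-!
# The digraph of stars
-/

open Finset Function

namespace Pool.Agent.Helper87.TotSync

/-- vertices: the root `(i, none)` and the three other vertices `(i, some l)` of the star `i` -/
abbrev Vtx (q : ℕ) : Type := Fin q × Option (Fin 3)

variable {q : ℕ} [NeZero q] {Λ : Type*}

/-- The digraph of stars. Every letter `lam` of the second kind has two vertices `x lam`, `y lam`
whose main edges to their roots are exchanged. -/
def headS (x y : Λ → Fin q × Fin 3) : Vtx q → Fin 3 ⊕ Λ → Vtx q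
  | (i, none), .inl l => (i + 1, some l)
  | (i, none), .inr _ => (i, none)
  | (i, some _), .inl _ => (i, none)
  | (i, some l), .inr lam => ((Equiv.swap (x lam) (y lam) (i, l)).1, none)

variable (x y : Λ → Fin q × Fin 3)

/-! ### A consistent colouring gives a non-synchronizing automaton -/

/-- configurations of the roots -/
def Good (χ : Fin q → Equiv.Perm (Fin 3)) (f : Fin q → Vtx q) : Prop :=
  ∃ π : Fin q → Fin q, Injective π ∧
    ((∀ i, f i = (π i, none)) ∨ ∃ b, ∀ i, f i = (π i, some ((χ (π i)).symm b)))

/-- the colouring of the edges -/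
def colS (χ : Fin q → Equiv.Perm (Fin 3)) : Vtx q → Equiv.Perm (Fin 3 ⊕ Λ)
  | (i, none) => Equiv.sumCongr (χ (i + 1)).symm (Equiv.refl Λ)
  | (_, some _) => Equiv.refl _

lemma Good.step {χ : Fin q → Equiv.Perm (Fin 3)}
    (hχ : ∀ lam, χ (x lam).1 (x lam).2 = χ (y lam).1 (y lam).2) {f : Fin q → Vtx q}
    (hf : Good χ f) (a : Fin 3 ⊕ Λ) : Good χ fun i => headS x y (f i) (colS χ (f i) a) := by
  obtain ⟨π, hπ, h | ⟨b, h⟩⟩ := hf
  · rcases a with b | lam
    · refine ⟨fun i => π i + 1, fun i j hij => hπ (by simpa using hij), Or.inr ⟨b, fun i => ?_⟩⟩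
      simp only [h i]; rfl
    · refine ⟨π, hπ, Or.inl fun i => ?_⟩
      simp only [h i]; rfl
  · rcases a with c | lam
    · refine ⟨π, hπ, Or.inl fun i => ?_⟩
      simp only [h i]; rfl
    · have hT : ∀ i, Equiv.swap (x lam) (y lam) (i, (χ i).symm b) =
          ((Equiv.swap (x lam) (y lam) (i, (χ i).symm b)).1,
            (χ (Equiv.swap (x lam) (y lam) (i, (χ i).symm b)).1).symm b) := by
        intro i
        have key : χ (Equiv.swap (x lam) (y lam) (i, (χ i).symm b)).1
            (Equiv.swap (x lam) (y lam) (i, (χ i).symm b)).2 = b := by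
          by_cases h1 : (i, (χ i).symm b) = x lam
          · rw [h1, Equiv.swap_apply_left, ← hχ, ← h1]; simp
          · by_cases h2 : (i, (χ i).symm b) = y lam
            · rw [h2, Equiv.swap_apply_right, hχ, ← h2]; simp
            · rw [Equiv.swap_apply_of_ne_of_ne h1 h2]; simp
        refine Prod.ext rfl ?_
        simp only
        rw [Equiv.eq_symm_apply]
        exact key
      refine ⟨fun i => (Equiv.swap (x lam) (y lam) (π i, (χ (π i)).symm b)).1, ?_,
        Or.inl fun i => ?_⟩
      · intro i j hij
        simp only at hij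
        have h1 := hT (π i)
        rw [hij, ← hT (π j)] at h1
        have h2 := (Equiv.swap (x lam) (y lam)).injective h1
        exact hπ (congrArg Prod.fst h2)
      · simp only [h i]; rfl

theorem not_totallySync (hq : 1 < q) (χ : Fin q → Equiv.Perm (Fin 3))
    (hχ : ∀ lam, χ (x lam).1 (x lam).2 = χ (y lam).1 (y lam).2) :
    ¬ TotallySync (headS x y) := by
  intro h
  obtain ⟨w, s, hw⟩ := h (colS χ)
  have key : ∀ (w : List (Fin 3 ⊕ Λ)) (f : Fin q → Vtx q), Good χ f →
      Good χ fun i => run (fun v a => headS x y v (colS χ v a)) (f i) w := by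
    intro w
    induction w with
    | nil => intro f hf; exact hf
    | cons a w ih => intro f hf; exact ih _ (hf.step x y hχ a)
  obtain ⟨π, hπ, h1⟩ := key w (fun i => (i, none)) ⟨id, injective_id, Or.inl fun i => rfl⟩
  have h01 : (⟨0, by omega⟩ : Fin q) ≠ ⟨1, hq⟩ := by simp
  apply h01
  apply hπ
  rcases h1 with h1 | ⟨b, h1⟩
  · have h2 := h1 ⟨0, by omega⟩
    have h3 := h1 ⟨1, hq⟩
    simp only [hw] at h2 h3
    exact (congrArg Prod.fst h2).symm.trans (congrArg Prod.fst h3)
  · have h2 := h1 ⟨0, by omega⟩
    have h3 := h1 ⟨1, hq⟩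
    simp only [hw] at h2 h3
    exact (congrArg Prod.fst h2).symm.trans (congrArg Prod.fst h3)

/-! ### The rank of the automata -/

variable [Fintype Λ]

/-- the weights -/
def wtS (Λ : Type*) [Fintype Λ] : Vtx q → ℕ
  | (_, none) => 3 + Fintype.card Λ
  | (_, some _) => 1

lemma sum_option_fin3 (f : Option (Fin 3) → ℕ) : ∑ o, f o = f none + ∑ l, f (some l) :=
  Fintype.sum_option f

lemma stationary_head [DecidableEq Λ] (u : Vtx q) :
    ∑ v, ∑ a, (if headS x y v a = u then wtS Λ v else 0) =
      Fintype.card (Fin 3 ⊕ Λ) * wtS Λ u := by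
  rw [Fintype.sum_prod_type]
  simp only [Fintype.sum_option, Fintype.sum_sum_type, Fintype.card_sum, Fintype.card_fin]
  obtain ⟨i, _ | l⟩ := u
  · -- a root
    simp only [headS, wtS, Prod.mk.injEq, reduceCtorEq, and_false, if_false, Finset.sum_const_zero,
      zero_add, and_true]
    rw [Finset.sum_add_distrib]
    have h1 : ∑ j : Fin q, ∑ _lam : Λ, (if j = i then 3 + Fintype.card Λ else 0) =
        Fintype.card Λ * (3 + Fintype.card Λ) := by
      simp
    have h2 : ∑ j : Fin q, ∑ l : Fin 3, ((∑ _b : Fin 3, if j = i then 1 else 0) +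
        ∑ lam : Λ, if (Equiv.swap (x lam) (y lam) (j, l)).1 = i then 1 else 0) =
        9 + 3 * Fintype.card Λ := by
      simp only [Finset.sum_add_distrib]
      congr 1
      · simp
      · have h3 : ∑ j : Fin q, ∑ l : Fin 3, ∑ lam : Λ,
            (if (Equiv.swap (x lam) (y lam) (j, l)).1 = i then 1 else 0) =
            ∑ lam : Λ, ∑ u : Fin q × Fin 3,
              (if (Equiv.swap (x lam) (y lam) u).1 = i then 1 else 0) := by
          have h5 := Fintype.sum_prod_type' (f := fun (j : Fin q) (l : Fin 3) => ∑ lam : Λ,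
            (if (Equiv.swap (x lam) (y lam) (j, l)).1 = i then 1 else 0))
          rw [← h5, Finset.sum_comm]
        rw [h3]
        have h4 : ∀ lam : Λ, ∑ u : Fin q × Fin 3,
              (if (Equiv.swap (x lam) (y lam) u).1 = i then 1 else 0) = 3 := by
          intro lam
          rw [Equiv.sum_comp (Equiv.swap (x lam) (y lam))
            (fun u : Fin q × Fin 3 => if u.1 = i then 1 else 0), Fintype.sum_prod_type]
          rw [Finset.sum_eq_single i]
          · simp
          · intro b _ hb; simp [hb]
          · simp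
        simp [h4, mul_comm]
    rw [h1, h2]
    ring
  · simp only [headS, wtS, Prod.mk.injEq, reduceCtorEq, and_false, if_false, Finset.sum_const_zero,
      add_zero, Option.some.injEq]
    have : ∀ j : Fin q, (∑ a : Fin 3, if j + 1 = i ∧ a = l then 3 + Fintype.card Λ else 0) =
        if j = i - 1 then 3 + Fintype.card Λ else 0 := by
      intro j
      by_cases hj : j + 1 = i
      · have hj' : j = i - 1 := by rw [← hj]; simp
        rw [if_pos hj']
        simp [hj]
      · have hj' : ¬ j = i - 1 := by rintro rfl; simp at hj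
        rw [if_neg hj']
        simp [hj]
    simp only [this]
    simp

end Pool.Agent.Helper87.TotSync
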